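import Mathlib

open scoped NNReal

namespace Pool.Agent.P.MP_32ff52_an

/-- Real Lipschitz functions on `X` vanishing at the origin. -/
def Lip0 (X : Type*) [NormedAddCommGroup X] : Submodule ℝ (X → ℝ) where
  carrier := {f | f 0 = 0 ∧ ∃ K : ℝ≥0, LipschitzWith K f}
  add_mem' := fun ⟨hf, K, hK⟩ ⟨hg, L, hL⟩ => ⟨by simp [hf, hg], K + L, hK.add hL⟩
  zero_mem' := ⟨rfl, 0, LipschitzWith.const 0⟩
  smul_mem' := fun c _ ⟨hf, K, hK⟩ => ⟨by simp [hf], ‖c‖₊ * K, (lipschitzWith_smul c).comp hK⟩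

/-- There is a bounded linear projection of `Lip0 X` onto the dual of `X` commuting with
composition by every surjective linear isometry of `X`. -/
def HasEquivariantDualLifting (X : Type*) [NormedAddCommGroup X] [NormedSpace ℝ X] : Prop :=
  ∃ P : Lip0 X →ₗ[ℝ] (X →L[ℝ] ℝ),
    (∃ C : ℝ, ∀ (f : Lip0 X) (K : ℝ≥0), LipschitzWith K (f : X → ℝ) → ‖P f‖ ≤ C * K) ∧
    (∀ (φ : X →L[ℝ] ℝ) (f : Lip0 X), (f : X → ℝ) = φ → P f = φ) ∧
    ∀ (g : X ≃ₗᵢ[ℝ] X) (f f' : Lip0 X), (f' : X → ℝ) = (f : X → ℝ) ∘ g →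
      ∀ x : X, P f' x = P f (g x)

end Pool.Agent.P.MP_32ff52_an
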