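import Mathlib
import Pool.Agent.P.MP_32ff52_an.Defs

open scoped NNReal

namespace Pool.Agent.P.MP_32ff52_an

variable {X Y : Type*} [NormedAddCommGroup X] [NormedSpace ℝ X] [NormedAddCommGroup Y]
  [NormedSpace ℝ Y]

/-- Precomposition with a linear isometric equivalence. -/
def compLip (e : X ≃ₗᵢ[ℝ] Y) : Lip0 Y →ₗ[ℝ] Lip0 X where
  toFun f := ⟨(f : Y → ℝ) ∘ e, by simpa using f.2.1, by
    obtain ⟨K, hK⟩ := f.2.2
    exact ⟨K * 1, hK.comp e.lipschitz⟩⟩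
  map_add' _ _ := rfl
  map_smul' _ _ := rfl

theorem HasEquivariantDualLifting.transfer (e : X ≃ₗᵢ[ℝ] Y) (h : HasEquivariantDualLifting X) :
    HasEquivariantDualLifting Y := by
  obtain ⟨P, ⟨C, hC⟩, hid, hg⟩ := h
  let s : Y →L[ℝ] X := e.symm.toContinuousLinearEquiv
  have hs : ∀ y, s y = e.symm y := fun _ => rfl
  let P' : Lip0 Y →ₗ[ℝ] (Y →L[ℝ] ℝ) :=
    { toFun := fun f => (P (compLip e f)).comp s
      map_add' := fun f g => by rw [map_add, map_add, ContinuousLinearMap.add_comp]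
      map_smul' := fun c f => by rw [map_smul, map_smul, ContinuousLinearMap.smul_comp]; rfl }
  have hP' : ∀ f y, P' f y = P (compLip e f) (e.symm y) := fun _ _ => rfl
  refine ⟨P', ⟨C, fun f K hK => ?_⟩, fun φ f hf => ?_, fun g f f' hf y => ?_⟩
  · have h1 := hC (compLip e f) K (by
      have := hK.comp e.lipschitz
      rwa [mul_one] at this)
    refine le_trans (ContinuousLinearMap.opNorm_le_bound _ (norm_nonneg _) fun y => ?_) h1
    rw [hP', ← e.symm.norm_map y]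
    exact ContinuousLinearMap.le_opNorm _ _
  · ext y
    rw [hP', hid (φ.comp (e.toContinuousLinearEquiv : X →L[ℝ] Y)) (compLip e f) (by
      ext x
      change (f : Y → ℝ) (e x) = _
      rw [hf]; rfl)]
    simp
  · rw [hP', hP', hg (e.trans (g.trans e.symm)) (compLip e f) (compLip e f') (by
      ext x
      change (f' : Y → ℝ) (e x) = (f : Y → ℝ) (e (e.symm (g (e x))))
      rw [hf]; simp)]
    simp

/-- `u` is bounded by `M` and `L`-Lipschitz on the unit ball. -/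
def BL (u : X → ℝ) (M L : ℝ) : Prop :=
  (∀ x, ‖x‖ ≤ 1 → |u x| ≤ M) ∧ ∀ x y, ‖x‖ ≤ 1 → ‖y‖ ≤ 1 → |u x - u y| ≤ L * ‖x - y‖

/-- Positively homogeneous extension from the sphere. -/
noncomputable def hom (u : X → ℝ) (x : X) : ℝ := ‖x‖ * u (‖x‖⁻¹ • x)

theorem norm_unit_le (x : X) : ‖‖x‖⁻¹ • x‖ ≤ 1 := by
  rw [norm_smul, norm_inv, norm_norm]
  exact inv_mul_le_one_of_le₀ le_rfl (norm_nonneg _)

theorem norm_smul_unit (x : X) : ‖x‖ • ‖x‖⁻¹ • x = x := by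
  by_cases hx : x = 0
  · simp [hx]
  · rw [smul_smul, mul_inv_cancel₀ (norm_ne_zero_iff.mpr hx), one_smul]

theorem BL.lip {u : X → ℝ} {M L : ℝ} (h : BL u M L) :
    LipschitzWith (M + 2 * |L|).toNNReal (hom u) := by
  have hM : 0 ≤ M := (abs_nonneg _).trans (h.1 0 (by simp))
  refine LipschitzWith.of_dist_le_mul fun x y => ?_
  rw [Real.coe_toNNReal _ (by positivity), Real.dist_eq, dist_eq_norm]
  have h1 : hom u x - hom u y = (‖x‖ - ‖y‖) * u (‖x‖⁻¹ • x) +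
      ‖y‖ * (u (‖x‖⁻¹ • x) - u (‖y‖⁻¹ • y)) := by unfold hom; ring
  have h2 : |‖x‖ - ‖y‖| ≤ ‖x - y‖ := abs_norm_sub_norm_le x y
  have h3 : ‖y‖ * ‖‖x‖⁻¹ • x - ‖y‖⁻¹ • y‖ ≤ 2 * ‖x - y‖ := by
    have h4 : ‖y‖ • (‖x‖⁻¹ • x - ‖y‖⁻¹ • y) = (‖y‖ - ‖x‖) • (‖x‖⁻¹ • x) + (x - y) := by
      rw [smul_sub, sub_smul, norm_smul_unit, norm_smul_unit]
      abel
    rw [← norm_smul_of_nonneg (norm_nonneg y), h4]
    refine (norm_add_le _ _).trans ?_
    rw [norm_smul, Real.norm_eq_abs, abs_sub_comm]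
    have := norm_unit_le x
    nlinarith [abs_nonneg (‖x‖ - ‖y‖), norm_nonneg (‖x‖⁻¹ • x)]
  rw [h1]
  refine (abs_add_le _ _).trans ?_
  rw [abs_mul, abs_mul, abs_norm]
  have h5 := h.1 _ (norm_unit_le x)
  have h6 := (h.2 _ _ (norm_unit_le x) (norm_unit_le y)).trans
    (mul_le_mul_of_nonneg_right (le_abs_self L) (norm_nonneg _))
  calc _ ≤ ‖x - y‖ * M + ‖y‖ * (|L| * ‖‖x‖⁻¹ • x - ‖y‖⁻¹ • y‖) := by gcongr
    _ = ‖x - y‖ * M + |L| * (‖y‖ * ‖‖x‖⁻¹ • x - ‖y‖⁻¹ • y‖) := by ring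
    _ ≤ ‖x - y‖ * M + |L| * (2 * ‖x - y‖) := by gcongr
    _ = _ := by ring

theorem BL.mem {u : X → ℝ} {M L : ℝ} (h : BL u M L) : hom u ∈ Lip0 X :=
  ⟨by simp [hom], _, h.lip⟩

/-- Bounded and Lipschitz on the unit ball. -/
def Adm (u : X → ℝ) : Prop := ∃ M L, BL u M L

omit [NormedSpace ℝ X] in
theorem BL.add {u v : X → ℝ} {M L M' L' : ℝ} (h : BL u M L) (h' : BL v M' L') :
    BL (fun x => u x + v x) (M + M') (L + L') := by
  refine ⟨fun x hx => (abs_add_le _ _).trans (add_le_add (h.1 x hx) (h'.1 x hx)),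
    fun x y hx hy => ?_⟩
  rw [add_sub_add_comm, add_mul]
  exact (abs_add_le _ _).trans (add_le_add (h.2 x y hx hy) (h'.2 x y hx hy))

omit [NormedSpace ℝ X] in
theorem Adm.add {u v : X → ℝ} (h : Adm u) (h' : Adm v) : Adm fun x => u x + v x := by
  obtain ⟨M, L, h⟩ := h
  obtain ⟨M', L', h'⟩ := h'
  exact ⟨_, _, h.add h'⟩

omit [NormedSpace ℝ X] in
theorem Adm.mul {u v : X → ℝ} (h : Adm u) (h' : Adm v) : Adm fun x => u x * v x := by
  obtain ⟨M, L, h⟩ := h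
  obtain ⟨M', L', h'⟩ := h'
  have hM : 0 ≤ M := (abs_nonneg _).trans (h.1 0 (by simp))
  have hM' : 0 ≤ M' := (abs_nonneg _).trans (h'.1 0 (by simp))
  refine ⟨M * M', L * M' + M * L', fun x hx => ?_, fun x y hx hy => ?_⟩
  · rw [abs_mul]
    exact mul_le_mul (h.1 x hx) (h'.1 x hx) (abs_nonneg _) hM
  · have : u x * v x - u y * v y = (u x - u y) * v x + u y * (v x - v y) := by ring
    rw [this]
    refine (abs_add_le _ _).trans ?_
    rw [abs_mul, abs_mul]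
    have h1 := mul_le_mul (h.2 x y hx hy) (h'.1 x hx) (abs_nonneg _)
      ((abs_nonneg _).trans (h.2 x y hx hy))
    have h2 := mul_le_mul (h.1 y hy) (h'.2 x y hx hy) (abs_nonneg _) hM
    linarith

theorem Adm.clm (φ : X →L[ℝ] ℝ) : Adm φ :=
  ⟨‖φ‖, ‖φ‖, fun x hx => (φ.le_opNorm x).trans (mul_le_of_le_one_right (norm_nonneg _) hx),
    fun x y _ _ => by rw [← map_sub]; exact φ.le_opNorm _⟩

/-- The operator induced on functions on the unit ball. -/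
structure BallOp (X : Type*) [NormedAddCommGroup X] [NormedSpace ℝ X] where
  Q : (X → ℝ) → X →L[ℝ] ℝ
  C : ℝ
  add : ∀ {u v : X → ℝ}, Adm u → Adm v → Q (fun x => u x + v x) = Q u + Q v
  neg : ∀ {u : X → ℝ}, Adm u → Q (fun x => -u x) = -Q u
  bound : ∀ {u : X → ℝ} {M L : ℝ}, BL u M L → ‖Q u‖ ≤ C * (M + 2 * |L|)
  comp : ∀ (g : X ≃ₗᵢ[ℝ] X) {u : X → ℝ}, Adm u → ∀ x, Q (fun y => u (g y)) x = Q u (g x)
  id : ∀ (φ : X →L[ℝ] ℝ) {u : X → ℝ}, Adm u → (∀ x, ‖x‖ = 1 → u x = φ x) → Q u = φ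

theorem HasEquivariantDualLifting.ballOp (h : HasEquivariantDualLifting X) :
    Nonempty (BallOp X) := by
  classical
  obtain ⟨P, ⟨C, hC⟩, hid, hg⟩ := h
  let Q : (X → ℝ) → X →L[ℝ] ℝ := fun u => if h : hom u ∈ Lip0 X then P ⟨hom u, h⟩ else 0
  have hQ : ∀ {u : X → ℝ} (h : hom u ∈ Lip0 X), Q u = P ⟨hom u, h⟩ := fun h => dif_pos h
  have hmem : ∀ {u : X → ℝ}, Adm u → hom u ∈ Lip0 X := fun ⟨_, _, h⟩ => h.mem
  refine ⟨⟨Q, C, fun {u v} hu hv => ?_, fun {u} hu => ?_, fun {u M L} hu => ?_,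
    fun g {u} hu x => ?_, fun φ {u} hu hφ => ?_⟩⟩
  · rw [hQ (hmem hu), hQ (hmem hv), hQ (hmem (hu.add hv)), ← map_add]
    congr 1
    ext x
    simp [hom, mul_add]
  · have h1 : hom (fun x => -u x) = -hom u := by ext x; simp [hom]
    have h2 : hom (fun x => -u x) ∈ Lip0 X := h1 ▸ (Lip0 X).neg_mem (hmem hu)
    rw [hQ h2, hQ (hmem hu), ← map_neg]
    congr 1
    exact Subtype.ext h1
  · have hM : 0 ≤ M := (abs_nonneg _).trans (hu.1 0 (by simp))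
    rw [hQ hu.mem]
    have := hC ⟨hom u, hu.mem⟩ _ hu.lip
    rwa [Real.coe_toNNReal _ (by positivity)] at this
  · have h1 : hom (fun y => u (g y)) = hom u ∘ g := by ext y; simp [hom]
    have h2 : hom (fun y => u (g y)) ∈ Lip0 X := h1 ▸ (compLip g ⟨hom u, hmem hu⟩).2
    rw [hQ h2, hQ (hmem hu)]
    exact hg g _ _ h1 x
  · rw [hQ (hmem hu)]
    refine hid φ _ (funext fun x => ?_)
    change ‖x‖ * u (‖x‖⁻¹ • x) = φ x
    by_cases hx : x = 0
    · simp [hx]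
    · rw [hφ _ (by rw [norm_smul, norm_inv, norm_norm, inv_mul_cancel₀ (norm_ne_zero_iff.mpr hx)]),
        ← smul_eq_mul, ← map_smul, norm_smul_unit]

theorem abs_rpow_sub_le {r a b m : ℝ} (hr : 1 ≤ r) (ha : 0 ≤ a) (hb : 0 ≤ b) (ham : a ≤ m)
    (hbm : b ≤ m) : |a ^ r - b ^ r| ≤ r * m ^ (r - 1) * |a - b| := by
  have h := Convex.norm_image_sub_le_of_norm_hasDerivWithin_le (f := fun t : ℝ => t ^ r)
    (f' := fun t => r * t ^ (r - 1)) (C := r * m ^ (r - 1)) (s := Set.Icc 0 m) (x := b) (y := a)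
    (fun t _ => (Real.hasDerivAt_rpow_const (Or.inr hr)).hasDerivWithinAt)
    (fun t ht => by
      rw [Real.norm_of_nonneg (mul_nonneg (by linarith) (Real.rpow_nonneg ht.1 _))]
      gcongr
      · exact ht.1
      · exact ht.2)
    (convex_Icc 0 m) ⟨hb, hbm⟩ ⟨ha, ham⟩
  simpa [Real.norm_eq_abs] using h

omit [NormedSpace ℝ X] in
theorem BL.norm_rpow {Z : Type*} [NormedAddCommGroup Z] {r : ℝ} (hr : 1 ≤ r) (π : X → Z)
    (h0 : ∀ x, ‖π x‖ ≤ ‖x‖) (h1 : ∀ x y, ‖π x - π y‖ ≤ ‖x - y‖) :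
    BL (fun x => ‖π x‖ ^ r) 1 r := by
  refine ⟨fun x hx => ?_, fun x y hx hy => ?_⟩
  · rw [abs_of_nonneg (by positivity)]
    exact Real.rpow_le_one (norm_nonneg _) ((h0 x).trans hx) (by linarith)
  · have := abs_rpow_sub_le hr (norm_nonneg (π x)) (norm_nonneg (π y)) ((h0 x).trans hx)
      ((h0 y).trans hy)
    rw [Real.one_rpow, mul_one] at this
    refine this.trans ?_
    gcongr
    exact (abs_norm_sub_norm_le _ _).trans (h1 x y)

end Pool.Agent.P.MP_32ff52_an
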