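import Mathlib

open scoped NNReal ENNReal
open Filter Topology MeasureTheory

namespace Pool.Agent.P.MP_32ff52_an

variable {α β : Type*} [MeasurableSpace α] [MeasurableSpace β] {μ ν : Measure α} {μb : Measure β}
  {p : ℝ≥0∞} [hp1 : Fact (1 ≤ p)]

theorem p_ne_zero : p ≠ 0 := (zero_lt_one.trans_le hp1.out).ne'

theorem one_le_toReal (hp : p ≠ ∞) : 1 ≤ p.toReal := by
  simpa using ENNReal.toReal_mono hp hp1.out

theorem norm_rpow_eq (hp : p ≠ ∞) (x : Lp ℝ p μ) :
    ‖x‖ ^ p.toReal = ∫ t, ‖x t‖ ^ p.toReal ∂μ := by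
  have hr := one_le_toReal hp
  rw [Lp.norm_def, toReal_eLpNorm (Lp.aestronglyMeasurable x),
    lpNorm_eq_integral_norm_rpow_toReal p_ne_zero hp (Lp.aestronglyMeasurable x),
    Real.rpow_inv_rpow (integral_nonneg fun _ => by positivity) (by linarith)]

/-- Composition with an almost invertible measure preserving map. -/
noncomputable def compEquiv (f : α → β) (hf : MeasurePreserving f μ μb) (g : β → α)
    (hg : MeasurePreserving g μb μ) (h : ∀ᵐ a ∂μ, g (f a) = a) :
    Lp ℝ p μb ≃ₗᵢ[ℝ] Lp ℝ p μ :=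
  LinearIsometryEquiv.ofSurjective (Lp.compMeasurePreservingₗᵢ ℝ f hf) fun y =>
    ⟨Lp.compMeasurePreserving g hg y, by
      refine Lp.ext ?_
      have h1 := Lp.coeFn_compMeasurePreserving (Lp.compMeasurePreserving g hg y) hf
      have h2 := hf.quasiMeasurePreserving.ae_eq_comp (Lp.coeFn_compMeasurePreserving y hg)
      filter_upwards [h1, h2, h] with a ha1 ha2 ha3
      refine ha1.trans (ha2.trans ?_)
      simp only [Function.comp, ha3]⟩

theorem compEquiv_apply (f : α → β) (hf : MeasurePreserving f μ μb) (g : β → α)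
    (hg : MeasurePreserving g μb μ) (h : ∀ᵐ a ∂μ, g (f a) = a) (x : Lp ℝ p μb) :
    compEquiv f hf g hg h x = Lp.compMeasurePreserving f hf x := rfl

theorem eLpNorm_mul (hp : p ≠ ∞) {w : α → ℝ} (hw : Measurable w)
    (hν : ν = μ.withDensity fun a => ‖w a‖ₑ ^ p.toReal) {x : α → ℝ} (hx : Measurable x) :
    eLpNorm (fun a => w a * x a) p μ = eLpNorm x p ν := by
  have hr := one_le_toReal hp
  rw [eLpNorm_eq_lintegral_rpow_enorm_toReal p_ne_zero hp,
    eLpNorm_eq_lintegral_rpow_enorm_toReal p_ne_zero hp, hν,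
    lintegral_withDensity_eq_lintegral_mul _ (by fun_prop) (by fun_prop)]
  congr 2
  ext a
  rw [enorm_mul, ENNReal.mul_rpow_of_nonneg _ _ (by linarith)]
  rfl

theorem memLp_mul (hp : p ≠ ∞) {w : α → ℝ} (hw : Measurable w)
    (hν : ν = μ.withDensity fun a => ‖w a‖ₑ ^ p.toReal) (x : Lp ℝ p ν) :
    MemLp (fun a => w a * x a) p μ :=
  ⟨(hw.mul (Lp.stronglyMeasurable x).measurable).aestronglyMeasurable, by
    rw [eLpNorm_mul hp hw hν (Lp.stronglyMeasurable x).measurable]
    exact Lp.eLpNorm_lt_top x⟩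

omit hp1 in
theorem ac_of_density {w : α → ℝ} (hw : Measurable w) (hw0 : ∀ a, w a ≠ 0)
    (hν : ν = μ.withDensity fun a => ‖w a‖ₑ ^ p.toReal) : μ ≪ ν := by
  rw [hν]
  refine withDensity_absolutelyContinuous' (by fun_prop) (.of_forall fun a => ?_)
  exact (ENNReal.rpow_pos (enorm_pos.mpr (hw0 a)) enorm_ne_top).ne'

/-- Multiplication by a weight, as an isometry. -/
noncomputable def mulIsometry (hp : p ≠ ∞) {w : α → ℝ} (hw : Measurable w) (hw0 : ∀ a, w a ≠ 0)
    (hν : ν = μ.withDensity fun a => ‖w a‖ₑ ^ p.toReal) : Lp ℝ p ν →ₗᵢ[ℝ] Lp ℝ p μ where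
  toFun x := (memLp_mul hp hw hν x).toLp _
  map_add' x y := by
    refine Lp.ext ?_
    filter_upwards [(memLp_mul hp hw hν (x + y)).coeFn_toLp, (memLp_mul hp hw hν x).coeFn_toLp,
      (memLp_mul hp hw hν y).coeFn_toLp,
      Lp.coeFn_add ((memLp_mul hp hw hν x).toLp _) ((memLp_mul hp hw hν y).toLp _),
      (ac_of_density hw hw0 hν).ae_eq (Lp.coeFn_add x y)] with a h1 h2 h3 h4 h5
    rw [h1, h4, h5, Pi.add_apply, Pi.add_apply, h2, h3, mul_add]
  map_smul' c x := by
    refine Lp.ext ?_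
    filter_upwards [(memLp_mul hp hw hν (c • x)).coeFn_toLp, (memLp_mul hp hw hν x).coeFn_toLp,
      Lp.coeFn_smul c ((memLp_mul hp hw hν x).toLp _),
      (ac_of_density hw hw0 hν).ae_eq (Lp.coeFn_smul c x)] with a h1 h2 h4 h5
    rw [h1, RingHom.id_apply, h4, h5, Pi.smul_apply, Pi.smul_apply, h2, smul_eq_mul, smul_eq_mul]
    ring
  norm_map' x := by
    change ‖(memLp_mul hp hw hν x).toLp _‖ = _
    rw [Lp.norm_toLp, eLpNorm_mul hp hw hν (Lp.stronglyMeasurable x).measurable, Lp.norm_def]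

theorem coeFn_mulIsometry (hp : p ≠ ∞) {w : α → ℝ} (hw : Measurable w) (hw0 : ∀ a, w a ≠ 0)
    (hν : ν = μ.withDensity fun a => ‖w a‖ₑ ^ p.toReal) (x : Lp ℝ p ν) :
    mulIsometry hp hw hw0 hν x =ᵐ[μ] fun a => w a * x a :=
  (memLp_mul hp hw hν x).coeFn_toLp

/-- Multiplication by a weight, as an isometric equivalence. -/
noncomputable def mulEquiv (hp : p ≠ ∞) {w : α → ℝ} (hw : Measurable w) (hw0 : ∀ a, w a ≠ 0)
    (hν : ν = μ.withDensity fun a => ‖w a‖ₑ ^ p.toReal) : Lp ℝ p ν ≃ₗᵢ[ℝ] Lp ℝ p μ :=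
  LinearIsometryEquiv.ofSurjective (mulIsometry hp hw hw0 hν) fun y => by
    have hm : Measurable fun a => (w a)⁻¹ * y a := hw.inv.mul (Lp.stronglyMeasurable y).measurable
    have h1 : (fun a => w a * ((w a)⁻¹ * y a)) = y := by
      ext a
      rw [mul_inv_cancel_left₀ (hw0 a)]
    have h2 : MemLp (fun a => (w a)⁻¹ * y a) p ν := ⟨hm.aestronglyMeasurable, by
      rw [← eLpNorm_mul hp hw hν hm, h1]
      exact Lp.eLpNorm_lt_top y⟩
    refine ⟨h2.toLp _, Lp.ext ?_⟩
    filter_upwards [coeFn_mulIsometry hp hw hw0 hν (h2.toLp _),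
      (ac_of_density hw hw0 hν).ae_eq h2.coeFn_toLp] with a h3 h4
    rw [h3, h4, mul_inv_cancel_left₀ (hw0 a)]

theorem coeFn_mulEquiv (hp : p ≠ ∞) {w : α → ℝ} (hw : Measurable w) (hw0 : ∀ a, w a ≠ 0)
    (hν : ν = μ.withDensity fun a => ‖w a‖ₑ ^ p.toReal) (x : Lp ℝ p ν) :
    mulEquiv hp hw hw0 hν x =ᵐ[μ] fun a => w a * x a :=
  (memLp_mul hp hw hν x).coeFn_toLp

/-- Restriction to a measurable set. -/
noncomputable def resL {E : Set α} (hE : MeasurableSet E) (x : Lp ℝ p μ) : Lp ℝ p μ :=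
  ((Lp.memLp x).indicator hE).toLp _

omit hp1 in
theorem coeFn_resL {E : Set α} (hE : MeasurableSet E) (x : Lp ℝ p μ) :
    resL hE x =ᵐ[μ] E.indicator x := ((Lp.memLp x).indicator hE).coeFn_toLp

omit hp1 in
theorem norm_resL_le {E : Set α} (hE : MeasurableSet E) (x : Lp ℝ p μ) : ‖resL hE x‖ ≤ ‖x‖ := by
  refine Lp.norm_le_norm_of_ae_le ?_
  filter_upwards [coeFn_resL hE x] with a ha
  rw [ha]
  exact norm_indicator_le_norm_self _ a

omit hp1 in
theorem norm_resL_sub_le {E : Set α} (hE : MeasurableSet E) (x y : Lp ℝ p μ) :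
    ‖resL hE x - resL hE y‖ ≤ ‖x - y‖ := by
  refine Lp.norm_le_norm_of_ae_le ?_
  filter_upwards [coeFn_resL hE x, coeFn_resL hE y, Lp.coeFn_sub (resL hE x) (resL hE y),
    Lp.coeFn_sub x y] with a h1 h2 h3 h4
  rw [h3, h4, Pi.sub_apply, Pi.sub_apply, h1, h2]
  by_cases ha : a ∈ E <;> simp [ha]

theorem norm_resL_rpow (hp : p ≠ ∞) {E : Set α} (hE : MeasurableSet E) (x : Lp ℝ p μ) :
    ‖resL hE x‖ ^ p.toReal = ∫ t, E.indicator (fun t => ‖x t‖ ^ p.toReal) t ∂μ := by
  have hr := one_le_toReal hp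
  rw [norm_rpow_eq hp]
  refine integral_congr_ae ?_
  filter_upwards [coeFn_resL hE x] with a ha
  rw [ha]
  by_cases h : a ∈ E
  · simp [h]
  · simp [h, (by linarith : p.toReal ≠ 0)]

theorem integrable_indicator' {A : Set α} (hA : MeasurableSet A) (hA' : μ A ≠ ∞) (x : Lp ℝ p μ) :
    Integrable (A.indicator x) μ := by
  have : IsFiniteMeasure (μ.restrict A) := isFiniteMeasure_restrict.mpr hA'
  exact (integrable_indicator_iff hA).mpr (((Lp.memLp x).restrict A).integrable hp1.out)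

theorem exists_L1_bound {A : Set α} (hA : MeasurableSet A) (hA' : μ A ≠ ∞) :
    ∃ c : ℝ, 0 ≤ c ∧ ∀ x : Lp ℝ p μ, ∫ s, ‖A.indicator x s‖ ∂μ ≤ c * ‖x‖ := by
  refine ⟨(μ A ^ (1 - 1 / p.toReal)).toReal, ENNReal.toReal_nonneg, fun x => ?_⟩
  have hfin : μ A ^ (1 - 1 / p.toReal) ≠ ∞ := by
    refine ENNReal.rpow_ne_top_of_nonneg ?_ hA'
    rcases eq_or_ne p ∞ with h | h
    · simp [h]
    · have := one_le_toReal h
      rw [sub_nonneg, div_le_one (by linarith)]
      exact this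
  have h1 := eLpNorm_le_eLpNorm_mul_rpow_measure_univ (μ := μ.restrict A) hp1.out
    (Lp.aestronglyMeasurable x).restrict
  rw [Measure.restrict_apply_univ, ENNReal.toReal_one, div_one] at h1
  have h2 := h1.trans (mul_le_mul_left (eLpNorm_restrict_le x p μ A) _)
  rw [← eLpNorm_indicator_eq_eLpNorm_restrict hA] at h2
  rw [← lpNorm_one_eq_integral_norm (integrable_indicator' hA hA' x).1,
    ← toReal_eLpNorm (integrable_indicator' hA hA' x).1, Lp.norm_def, ← ENNReal.toReal_mul,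
    mul_comm]
  exact ENNReal.toReal_mono (ENNReal.mul_ne_top (Lp.eLpNorm_ne_top x) hfin) h2

/-- Integration over a set of finite measure. -/
noncomputable def intCLM {A : Set α} (hA : MeasurableSet A) (hA' : μ A ≠ ∞) : Lp ℝ p μ →L[ℝ] ℝ :=
  LinearMap.mkContinuousOfExistsBound
    { toFun := fun x => ∫ s, A.indicator x s ∂μ
      map_add' := fun x y => by
        rw [← integral_add (integrable_indicator' hA hA' x) (integrable_indicator' hA hA' y)]
        refine integral_congr_ae ?_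
        filter_upwards [Lp.coeFn_add x y] with a ha
        by_cases h : a ∈ A
        · rw [Set.indicator_of_mem h, Set.indicator_of_mem h, Set.indicator_of_mem h, ha,
            Pi.add_apply]
        · simp [h]
      map_smul' := fun c x => by
        rw [RingHom.id_apply, ← integral_smul]
        refine integral_congr_ae ?_
        filter_upwards [Lp.coeFn_smul c x] with a ha
        by_cases h : a ∈ A
        · rw [Set.indicator_of_mem h, Set.indicator_of_mem h, ha, Pi.smul_apply]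
        · simp [h] }
    (by
      obtain ⟨c, -, hc⟩ := exists_L1_bound (p := p) hA hA'
      exact ⟨c, fun x => (norm_integral_le_integral_norm _).trans (hc x)⟩)

theorem intCLM_apply {A : Set α} (hA : MeasurableSet A) (hA' : μ A ≠ ∞) (x : Lp ℝ p μ) :
    intCLM hA hA' x = ∫ s, A.indicator x s ∂μ := rfl

theorem integral_comp_mp {g : α → β} (hg : MeasurePreserving g μ μb) {F : β → ℝ}
    (hF : Measurable F) : ∫ s, F (g s) ∂μ = ∫ s, F s ∂μb := by
  rw [← hg.map_eq, integral_map hg.measurable.aemeasurable hF.aestronglyMeasurable]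

end Pool.Agent.P.MP_32ff52_an
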