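import Mathlib
import Pool.Agent.P.MP_32ff52_an.Basic
import Pool.Agent.P.MP_32ff52_an.LpTools

open scoped NNReal ENNReal
open Filter Topology MeasureTheory Set

namespace Pool.Agent.P.MP_32ff52_an

variable {G : Type*} [AddCommGroup G] [MeasurableSpace G] [MeasurableSub₂ G] {μ : Measure G}
  [SFinite μ] {p : ℝ≥0∞} [hp1 : Fact (1 ≤ p)]

/-- Mass of `|x|^p` on the translate `s + S`. -/
noncomputable def aS (S : Set G) (x : Lp ℝ p μ) (s : G) : ℝ :=
  ∫ t, {t | t - s ∈ S}.indicator (fun t => ‖x t‖ ^ p.toReal) t ∂μ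

theorem meas_shift {S : Set G} (hS : MeasurableSet S) (s : G) : MeasurableSet {t | t - s ∈ S} :=
  hS.preimage (f := fun t => t - s) (by fun_prop)

omit [SFinite μ] in
theorem aS_eq (hp : p ≠ ∞) {S : Set G} (hS : MeasurableSet S) (x : Lp ℝ p μ) (s : G) :
    aS S x s = ‖resL (meas_shift hS s) x‖ ^ p.toReal := (norm_resL_rpow hp _ x).symm

omit [SFinite μ] in
theorem aS_BL (hp : p ≠ ∞) {S : Set G} (hS : MeasurableSet S) (s : G) :
    BL (fun x : Lp ℝ p μ => aS S x s) 1 p.toReal := by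
  simp only [aS_eq hp hS]
  exact BL.norm_rpow (one_le_toReal hp) _ (norm_resL_le _) (norm_resL_sub_le _)

omit [SFinite μ] in
theorem aS_abs_le (hp : p ≠ ∞) {S : Set G} (hS : MeasurableSet S) (x : Lp ℝ p μ) (s : G) :
    ‖aS S x s‖ ≤ ‖x‖ ^ p.toReal := by
  rw [aS_eq hp hS, Real.norm_of_nonneg (by positivity)]
  gcongr
  exact norm_resL_le _ _

omit hp1 in
theorem aS_meas {S : Set G} (hS : MeasurableSet S) (x : Lp ℝ p μ) : Measurable (aS S x) := by
  have h1 : MeasurableSet {z : G × G | z.2 - z.1 ∈ S} :=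
    hS.preimage (f := fun z : G × G => z.2 - z.1) (by fun_prop)
  have hx := (Lp.stronglyMeasurable x).measurable
  have h2 : Measurable ({z : G × G | z.2 - z.1 ∈ S}.indicator
      fun z => ‖x z.2‖ ^ p.toReal) := Measurable.indicator (by fun_prop) h1
  exact (h2.stronglyMeasurable.integral_prod_right' (ν := μ)).measurable

omit [AddCommGroup G] [MeasurableSub₂ G] [SFinite μ] in
theorem integrable_rpow (hp : p ≠ ∞) (x : Lp ℝ p μ) :
    Integrable (fun t => ‖x t‖ ^ p.toReal) μ := (Lp.memLp x).integrable_norm_rpow p_ne_zero hp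

omit [SFinite μ] in
theorem aS_union (hp : p ≠ ∞) {S S' : Set G} (hS : MeasurableSet S) (hS' : MeasurableSet S')
    (h : Disjoint S S') (x : Lp ℝ p μ) (s : G) : aS (S ∪ S') x s = aS S x s + aS S' x s := by
  unfold aS
  rw [← integral_add ((integrable_rpow hp x).indicator (meas_shift hS s))
    ((integrable_rpow hp x).indicator (meas_shift hS' s))]
  congr 1
  ext t
  exact congrFun (indicator_union_of_disjoint (h.preimage fun t => t - s) _) t

/-- The test functions. -/
noncomputable def uu (S A : Set G) (x : Lp ℝ p μ) : ℝ :=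
  ∫ s, A.indicator x s * aS S x s ∂μ

theorem uu_int (hp : p ≠ ∞) {S A : Set G} (hS : MeasurableSet S) (hA : MeasurableSet A)
    (hA' : μ A ≠ ∞) (x y : Lp ℝ p μ) : Integrable (fun s => A.indicator x s * aS S y s) μ :=
  (integrable_indicator' hA hA' x).mul_bdd (aS_meas hS y).aestronglyMeasurable
    (.of_forall (aS_abs_le hp hS y))

theorem uu_adm (hp : p ≠ ∞) {S A : Set G} (hS : MeasurableSet S) (hA : MeasurableSet A)
    (hA' : μ A ≠ ∞) : Adm (uu S A : Lp ℝ p μ → ℝ) := by
  obtain ⟨c, hc0, hc⟩ := exists_L1_bound (p := p) hA hA'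
  have hr := one_le_toReal hp
  have key : ∀ (x : Lp ℝ p μ) (F : G → ℝ) (M : ℝ), 0 ≤ M → (∀ s, |F s| ≤ M) →
      |∫ s, A.indicator x s * F s ∂μ| ≤ c * ‖x‖ * M := by
    intro x F M hM hF
    refine le_trans ?_ (mul_le_mul_of_nonneg_right (hc x) hM)
    rw [← integral_mul_const, ← Real.norm_eq_abs]
    refine norm_integral_le_of_norm_le ((integrable_indicator' hA hA' x).norm.mul_const M)
      (.of_forall fun s => ?_)
    rw [norm_mul]
    exact mul_le_mul_of_nonneg_left (hF s) (norm_nonneg _)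
  refine ⟨c, c + c * p.toReal, fun x hx => ?_, fun x y hx hy => ?_⟩
  · refine (key x _ 1 zero_le_one fun s => (aS_BL hp hS s).1 x hx).trans ?_
    rw [mul_one]
    exact mul_le_of_le_one_right hc0 hx
  · have h1 : uu S A x - uu S A y = ∫ s, A.indicator (x - y : Lp ℝ p μ) s * aS S x s ∂μ +
        ∫ s, A.indicator y s * (aS S x s - aS S y s) ∂μ := by
      unfold uu
      simp only [mul_sub]
      rw [integral_sub (uu_int hp hS hA hA' y x) (uu_int hp hS hA hA' y y), add_sub,
        ← integral_add (uu_int hp hS hA hA' _ x) (uu_int hp hS hA hA' y x)]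
      congr 1
      refine integral_congr_ae ?_
      filter_upwards [Lp.coeFn_sub x y] with s hs
      by_cases h : s ∈ A
      · rw [indicator_of_mem h, indicator_of_mem h, indicator_of_mem h, hs, Pi.sub_apply]
        ring
      · simp [h]
    rw [h1]
    refine (abs_add_le _ _).trans ?_
    have h2 := key (x - y) _ 1 zero_le_one fun s => (aS_BL hp hS s).1 x hx
    have h3 := key y _ (p.toReal * ‖x - y‖) (by positivity) fun s => (aS_BL hp hS s).2 x y hx hy
    have h4 : c * ‖y‖ * (p.toReal * ‖x - y‖) ≤ c * 1 * (p.toReal * ‖x - y‖) := by gcongr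
    linarith

theorem uu_union_left (hp : p ≠ ∞) {S S' A : Set G} (hS : MeasurableSet S)
    (hS' : MeasurableSet S') (h : Disjoint S S') (hA : MeasurableSet A) (hA' : μ A ≠ ∞)
    (x : Lp ℝ p μ) : uu (S ∪ S') A x = uu S A x + uu S' A x := by
  unfold uu
  rw [← integral_add (uu_int hp hS hA hA' x x) (uu_int hp hS' hA hA' x x)]
  simp only [aS_union hp hS hS' h, mul_add]

theorem uu_union_right (hp : p ≠ ∞) {S A A' : Set G} (hS : MeasurableSet S)
    (hA : MeasurableSet A) (hA1 : μ A ≠ ∞) (hA' : MeasurableSet A') (hA1' : μ A' ≠ ∞)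
    (h : Disjoint A A') (x : Lp ℝ p μ) : uu S (A ∪ A') x = uu S A x + uu S A' x := by
  unfold uu
  rw [← integral_add (uu_int hp hS hA hA1 x x) (uu_int hp hS hA' hA1' x x)]
  simp only [indicator_union_of_disjoint h, add_mul]

omit [MeasurableSub₂ G] [SFinite μ] in
theorem uu_univ (hp : p ≠ ∞) {A : Set G} (hA : MeasurableSet A) (hA' : μ A ≠ ∞) (x : Lp ℝ p μ)
    (hx : ‖x‖ = 1) : uu univ A x = intCLM hA hA' x := by
  have : ∀ s, aS univ x s = 1 := fun s => by
    have h := norm_rpow_eq hp x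
    rw [hx, Real.one_rpow] at h
    rw [h]
    simp [aS]
  simp only [uu, this, mul_one, intCLM_apply]

omit [MeasurableSub₂ G] [SFinite μ] hp1 in
theorem uu_zero [NullSingletonClass μ] (A : Set G) (x : Lp ℝ p μ) : uu {0} A x = 0 := by
  have : ∀ s, aS {0} x s = 0 := fun s => by
    refine integral_eq_zero_of_ae ?_
    filter_upwards [(measure_eq_zero_iff_ae_notMem.mp (measure_singleton (μ := μ) s))] with t ht
    refine indicator_of_notMem ?_ _
    simpa [sub_eq_zero] using ht
  simp [uu, this]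

omit hp1 in
theorem uu_comp {g L : G → G} (hg : MeasurePreserving g μ μ) (hL : ∀ s t, g t - g s = L (t - s))
    {S A : Set G} (hS : MeasurableSet S) (hA : MeasurableSet A) (x : Lp ℝ p μ) :
    uu (L ⁻¹' S) (g ⁻¹' A) (Lp.compMeasurePreserving g hg x) = uu S A x := by
  have hx := (Lp.stronglyMeasurable x).measurable
  have h1 : ∀ s, aS (L ⁻¹' S) (Lp.compMeasurePreserving g hg x) s = aS S x (g s) := fun s => by
    unfold aS
    rw [← integral_comp_mp hg (Measurable.indicator (by fun_prop) (meas_shift hS _))]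
    refine integral_congr_ae ?_
    filter_upwards [Lp.coeFn_compMeasurePreserving x hg] with t ht
    by_cases h : L (t - s) ∈ S
    · rw [indicator_of_mem (by exact h), indicator_of_mem (by rw [mem_ofPred_eq, hL]; exact h), ht]
      rfl
    · rw [indicator_of_notMem (by exact h),
        indicator_of_notMem (by rw [mem_ofPred_eq, hL]; exact h)]
  unfold uu
  refine Eq.trans ?_ (integral_comp_mp hg (F := fun s => A.indicator x s * aS S x s)
    ((hx.indicator hA).mul (aS_meas hS x)))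
  refine integral_congr_ae ?_
  filter_upwards [Lp.coeFn_compMeasurePreserving x hg] with s hs
  rw [h1]
  by_cases h : g s ∈ A
  · rw [indicator_of_mem (by exact h), indicator_of_mem h, hs]
    rfl
  · rw [indicator_of_notMem (by exact h), indicator_of_notMem h]

/-- The sign function of a set. -/
noncomputable def sgn (A : Set G) (s : G) : ℝ := 1 - 2 * A.indicator 1 s

omit [AddCommGroup G] [MeasurableSub₂ G] in
theorem sgn_meas {A : Set G} (hA : MeasurableSet A) : Measurable (sgn A) :=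
  measurable_const.sub ((measurable_one.indicator hA).const_mul _)

omit [AddCommGroup G] [MeasurableSpace G] [MeasurableSub₂ G] in
theorem sgn_of_mem {A : Set G} {s : G} (h : s ∈ A) : sgn A s = -1 := by
  simp only [sgn, indicator_of_mem h, Pi.one_apply]
  norm_num

omit [AddCommGroup G] [MeasurableSpace G] [MeasurableSub₂ G] in
theorem sgn_of_notMem {A : Set G} {s : G} (h : s ∉ A) : sgn A s = 1 := by
  simp [sgn, indicator_of_notMem h]

omit [AddCommGroup G] [MeasurableSpace G] [MeasurableSub₂ G] in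
theorem norm_sgn (A : Set G) (s : G) : ‖sgn A s‖ = 1 := by
  by_cases h : s ∈ A
  · simp [sgn_of_mem h]
  · simp [sgn_of_notMem h]

/-- Sign change on a set. -/
noncomputable def flipL (hp : p ≠ ∞) {A : Set G} (hA : MeasurableSet A) :
    Lp ℝ p μ ≃ₗᵢ[ℝ] Lp ℝ p μ :=
  mulEquiv hp (sgn_meas hA) (fun s => by rw [← norm_ne_zero_iff, norm_sgn]; exact one_ne_zero) (by
    have : ∀ s, ‖sgn A s‖ₑ = 1 := fun s => by rw [← ofReal_norm, norm_sgn, ENNReal.ofReal_one]
    simp only [this, ENNReal.one_rpow]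
    exact withDensity_one.symm)

omit [AddCommGroup G] [MeasurableSub₂ G] [SFinite μ] in
theorem coeFn_flip (hp : p ≠ ∞) {A : Set G} (hA : MeasurableSet A) (x : Lp ℝ p μ) :
    flipL hp hA x =ᵐ[μ] fun s => sgn A s * x s := coeFn_mulEquiv hp _ _ _ x

omit [MeasurableSub₂ G] [SFinite μ] in
theorem uu_flip (hp : p ≠ ∞) (S : Set G) {A : Set G} (hA : MeasurableSet A) (x : Lp ℝ p μ) :
    uu S A (flipL hp hA x) = -uu S A x := by
  have h1 : ∀ s, aS S (flipL hp hA x) s = aS S x s := fun s => by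
    refine integral_congr_ae ?_
    filter_upwards [coeFn_flip hp hA x] with t ht
    by_cases h : t ∈ {t | t - s ∈ S}
    · rw [indicator_of_mem h, indicator_of_mem h, ht, norm_mul, norm_sgn, one_mul]
    · rw [indicator_of_notMem h, indicator_of_notMem h]
  unfold uu
  rw [← integral_neg]
  refine integral_congr_ae ?_
  filter_upwards [coeFn_flip hp hA x] with s hs
  rw [h1]
  by_cases h : s ∈ A
  · rw [indicator_of_mem h, indicator_of_mem h, hs, sgn_of_mem h]
    ring
  · simp [h]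

omit [AddCommGroup G] [MeasurableSub₂ G] [SFinite μ] in
theorem flip_ind (hp : p ≠ ∞) {A A' : Set G} (hA : MeasurableSet A) (hA' : MeasurableSet A')
    (h1 : μ A' ≠ ∞) (h : Disjoint A A') :
    flipL hp hA (indicatorConstLp p hA' h1 (1 : ℝ)) = indicatorConstLp p hA' h1 (1 : ℝ) := by
  refine Lp.ext ?_
  filter_upwards [coeFn_flip hp hA (indicatorConstLp p hA' h1 (1 : ℝ)),
    indicatorConstLp_coeFn (p := p) (hs := hA') (hμs := h1) (c := (1 : ℝ))] with s h2 h3
  rw [h2, h3]
  by_cases hs : s ∈ A'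
  · rw [sgn_of_notMem (Set.disjoint_right.mp h hs), one_mul]
  · simp [hs]

open Classical in
/-- The charge produced by an equivariant projection. -/
noncomputable def chg (B : BallOp (Lp ℝ p μ)) (S A : Set G) : ℝ :=
  if h : MeasurableSet A ∧ μ A ≠ ∞ then B.Q (uu S A) (indicatorConstLp p h.1 h.2 (1 : ℝ)) else 0

omit [MeasurableSub₂ G] [SFinite μ] in
theorem chg_eq (B : BallOp (Lp ℝ p μ)) (S : Set G) {A : Set G} (hA : MeasurableSet A)
    (hA' : μ A ≠ ∞) : chg B S A = B.Q (uu S A) (indicatorConstLp p hA hA' (1 : ℝ)) :=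
  dif_pos ⟨hA, hA'⟩

theorem chg_union_left (hp : p ≠ ∞) (B : BallOp (Lp ℝ p μ)) {S S' A : Set G}
    (hS : MeasurableSet S) (hS' : MeasurableSet S') (h : Disjoint S S') (hA : MeasurableSet A)
    (hA' : μ A ≠ ∞) : chg B (S ∪ S') A = chg B S A + chg B S' A := by
  rw [chg_eq B _ hA hA', chg_eq B _ hA hA', chg_eq B _ hA hA', ← add_apply,
    ← B.add (uu_adm hp hS hA hA') (uu_adm hp hS' hA hA')]
  congr 2
  ext x
  exact uu_union_left hp hS hS' h hA hA' x

theorem Q_disjoint (hp : p ≠ ∞) (B : BallOp (Lp ℝ p μ)) {S A A' : Set G} (hS : MeasurableSet S)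
    (hA : MeasurableSet A) (hA1 : μ A ≠ ∞) (hA' : MeasurableSet A') (hA1' : μ A' ≠ ∞)
    (h : Disjoint A A') : B.Q (uu S A) (indicatorConstLp p hA' hA1' (1 : ℝ)) = 0 := by
  have h1 := B.comp (flipL hp hA) (uu_adm hp hS hA hA1) (indicatorConstLp p hA' hA1' (1 : ℝ))
  rw [flip_ind hp hA hA' hA1' h] at h1
  simp only [uu_flip] at h1
  rw [B.neg (uu_adm hp hS hA hA1), neg_apply] at h1
  linarith

theorem chg_union_right (hp : p ≠ ∞) (B : BallOp (Lp ℝ p μ)) {S A A' : Set G}
    (hS : MeasurableSet S) (hA : MeasurableSet A) (hA1 : μ A ≠ ∞) (hA' : MeasurableSet A')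
    (hA1' : μ A' ≠ ∞) (h : Disjoint A A') : chg B S (A ∪ A') = chg B S A + chg B S A' := by
  have h2 : (uu S (A ∪ A') : Lp ℝ p μ → ℝ) = fun x => uu S A x + uu S A' x :=
    funext (uu_union_right hp hS hA hA1 hA' hA1' h)
  rw [chg_eq B _ (hA.union hA') (measure_union_ne_top hA1 hA1'), chg_eq B _ hA hA1,
    chg_eq B _ hA' hA1', h2, B.add (uu_adm hp hS hA hA1) (uu_adm hp hS hA' hA1'),
    indicatorConstLp_disjoint_union hA hA' hA1 hA1' h, map_add, add_apply,
    add_apply, Q_disjoint hp B hS hA hA1 hA' hA1' h,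
    Q_disjoint hp B hS hA' hA1' hA hA1 h.symm, add_zero, zero_add]

theorem chg_comp (hp : p ≠ ∞) (B : BallOp (Lp ℝ p μ)) {g g' L : G → G}
    (hg : MeasurePreserving g μ μ) (hg' : MeasurePreserving g' μ μ) (hgg : ∀ s, g' (g s) = s)
    (hLm : Measurable L) (hL : ∀ s t, g t - g s = L (t - s)) {S A : Set G} (hS : MeasurableSet S)
    (hA : MeasurableSet A) (hA' : μ A ≠ ∞) : chg B (L ⁻¹' S) (g ⁻¹' A) = chg B S A := by
  have hA1 : MeasurableSet (g ⁻¹' A) := hA.preimage hg.measurable
  have hA2 : μ (g ⁻¹' A) ≠ ∞ := by rwa [hg.measure_preimage hA.nullMeasurableSet]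
  have h1 := B.comp (compEquiv g hg g' hg' (.of_forall hgg))
    (uu_adm hp (hS.preimage hLm) hA1 hA2) (indicatorConstLp p hA hA' (1 : ℝ))
  simp only [compEquiv_apply, uu_comp hg hL hS hA] at h1
  rw [chg_eq B _ hA hA', chg_eq B _ hA1 hA2, h1, Lp.indicatorConstLp_compMeasurePreserving]

theorem chg_univ (hp : p ≠ ∞) (B : BallOp (Lp ℝ p μ)) {A : Set G} (hA : MeasurableSet A)
    (hA' : μ A ≠ ∞) : chg B univ A = μ.real A := by
  rw [chg_eq B _ hA hA', B.id (intCLM hA hA') (uu_adm hp MeasurableSet.univ hA hA')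
    (uu_univ hp hA hA'), intCLM_apply, ← integral_indicator_one hA]
  refine integral_congr_ae ?_
  filter_upwards [indicatorConstLp_coeFn (p := p) (hs := hA) (hμs := hA') (c := (1 : ℝ))] with s h
  by_cases hs : s ∈ A
  · rw [indicator_of_mem hs, h, indicator_of_mem hs, indicator_of_mem hs, Pi.one_apply]
  · simp [hs]

omit [MeasurableSub₂ G] [SFinite μ] in
theorem chg_zero [NullSingletonClass μ] (B : BallOp (Lp ℝ p μ)) {A : Set G} (hA : MeasurableSet A)
    (hA' : μ A ≠ ∞) : chg B {0} A = 0 := by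
  have h1 : (uu {0} A : Lp ℝ p μ → ℝ) = (0 : Lp ℝ p μ →L[ℝ] ℝ) := funext (uu_zero A)
  rw [chg_eq B _ hA hA', h1, B.id 0 (Adm.clm 0) fun _ _ => rfl]
  rfl

end Pool.Agent.P.MP_32ff52_an
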