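import Mathlib
import Pool.Agent.P.MP_32ff52_an.Basic

open scoped NNReal ENNReal
open Filter Topology

namespace Pool.Agent.P.MP_32ff52_an

section General

variable {X : Type*} [NormedAddCommGroup X] [NormedSpace ℝ X]

omit [NormedSpace ℝ X] in
theorem Adm.zero : Adm fun _ : X => (0 : ℝ) := ⟨0, 0, by simp, by simp⟩

omit [NormedSpace ℝ X] in
theorem Adm.sum {ι : Type*} (s : Finset ι) {u : ι → X → ℝ} (h : ∀ i, Adm (u i)) :
    Adm fun x => ∑ i ∈ s, u i x := by
  classical
  induction s using Finset.induction_on with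
  | empty => simpa using Adm.zero
  | insert a s ha ih => simpa only [Finset.sum_insert ha] using (h a).add ih

theorem BallOp.sum (B : BallOp X) {ι : Type*} (s : Finset ι) {u : ι → X → ℝ}
    (h : ∀ i, Adm (u i)) : B.Q (fun x => ∑ i ∈ s, u i x) = ∑ i ∈ s, B.Q (u i) := by
  classical
  induction s using Finset.induction_on with
  | empty => simpa using B.id 0 Adm.zero (by simp)
  | insert a s ha ih =>
    simp only [Finset.sum_insert ha]
    rw [B.add (h a) (Adm.sum s h), ih]

end General

variable {p : ℝ≥0∞} [hp1 : Fact (1 ≤ p)] {I J : Type*}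

theorem toReal_ge (hp : p ≠ ∞) : 1 ≤ p.toReal := by
  simpa using ENNReal.toReal_mono hp hp1.out

theorem toReal_pos' (hp : p ≠ ∞) : 0 < p.toReal := one_pos.trans_le (toReal_ge hp)

/-- Reindexing isometry. -/
noncomputable def reindex (hp : p ≠ ∞) (e : I ≃ J) :
    lp (fun _ : J => ℝ) p ≃ₗᵢ[ℝ] lp (fun _ : I => ℝ) p where
  toFun x := ⟨fun i => x (e i), memℓp_gen
    ((e.summable_iff (f := fun j => ‖x j‖ ^ p.toReal)).mpr ((lp.memℓp x).summable (toReal_pos' hp)))⟩
  invFun y := ⟨fun j => y (e.symm j), memℓp_gen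
    ((e.symm.summable_iff (f := fun j => ‖y j‖ ^ p.toReal)).mpr
      ((lp.memℓp y).summable (toReal_pos' hp)))⟩
  map_add' _ _ := rfl
  map_smul' _ _ := rfl
  left_inv x := lp.ext (funext fun j => congrArg x (e.apply_symm_apply j))
  right_inv y := lp.ext (funext fun i => congrArg y (e.symm_apply_apply i))
  norm_map' x := by
    rw [lp.norm_eq_tsum_rpow (toReal_pos' hp), lp.norm_eq_tsum_rpow (toReal_pos' hp)]
    congr 1
    exact e.tsum_eq fun j => ‖x j‖ ^ p.toReal

theorem reindex_apply (hp : p ≠ ∞) (e : I ≃ J) (x : lp (fun _ : J => ℝ) p) (i : I) :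
    reindex hp e x i = x (e i) := rfl

open Classical in
/-- Change of sign of one coordinate. -/
noncomputable def flip (j : I) : lp (fun _ : I => ℝ) p ≃ₗᵢ[ℝ] lp (fun _ : I => ℝ) p where
  toFun x := ⟨fun i => if i = j then -x i else x i,
    (lp.memℓp x).mono' fun i => by split_ifs <;> simp⟩
  invFun x := ⟨fun i => if i = j then -x i else x i,
    (lp.memℓp x).mono' fun i => by split_ifs <;> simp⟩
  map_add' x y := lp.ext (funext fun i => by
    change (if i = j then -(x i + y i) else x i + y i) =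
      (if i = j then -x i else x i) + if i = j then -y i else y i
    split_ifs <;> ring)
  map_smul' c x := lp.ext (funext fun i => by
    change (if i = j then -(c * x i) else c * x i) = c * if i = j then -x i else x i
    split_ifs <;> ring)
  left_inv x := lp.ext (funext fun i => by
    change (if i = j then -(if i = j then -x i else x i) else (if i = j then -x i else x i)) = x i
    split_ifs <;> ring)
  right_inv x := lp.ext (funext fun i => by
    change (if i = j then -(if i = j then -x i else x i) else (if i = j then -x i else x i)) = x i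
    split_ifs <;> ring)
  norm_map' x := by
    have hp0 : p ≠ 0 := (zero_lt_one.trans_le hp1.out).ne'
    refine le_antisymm (lp.norm_mono hp0 fun i => ?_) (lp.norm_mono hp0 fun i => ?_)
    · change ‖if i = j then -x i else x i‖ ≤ _
      split_ifs <;> simp
    · change _ ≤ ‖if i = j then -x i else x i‖
      split_ifs <;> simp

open Classical in
theorem flip_apply (j : I) (x : lp (fun _ : I => ℝ) p) (i : I) :
    flip j x i = if i = j then -x i else x i := rfl

/-- Restriction to a set of coordinates. -/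
noncomputable def res (S : Set I) (x : lp (fun _ : I => ℝ) p) : lp (fun _ : I => ℝ) p :=
  ⟨S.indicator x, (lp.memℓp x).mono' fun i => norm_indicator_le_norm_self _ i⟩

omit hp1 in
theorem res_apply (S : Set I) (x : lp (fun _ : I => ℝ) p) (i : I) :
    res S x i = S.indicator x i := rfl

theorem norm_res_le (S : Set I) (x : lp (fun _ : I => ℝ) p) : ‖res S x‖ ≤ ‖x‖ :=
  lp.norm_mono (zero_lt_one.trans_le hp1.out).ne' fun i => norm_indicator_le_norm_self _ i

theorem adm_res (hp : p ≠ ∞) (S : Set I) :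
    Adm fun x : lp (fun _ : I => ℝ) p => ‖res S x‖ ^ p.toReal := by
  refine ⟨_, _, BL.norm_rpow (toReal_ge hp) (res S) (norm_res_le S) fun x y => ?_⟩
  have : res S x - res S y = res S (x - y) := lp.ext (funext fun i => by
    change S.indicator x i - S.indicator y i = S.indicator (fun i => x i - y i) i
    by_cases hi : i ∈ S <;> simp [hi])
  rw [this]
  exact norm_res_le S _

theorem res_union (hp : p ≠ ∞) {S T : Set I} (h : Disjoint S T) (x : lp (fun _ : I => ℝ) p) :
    ‖res (S ∪ T) x‖ ^ p.toReal = ‖res S x‖ ^ p.toReal + ‖res T x‖ ^ p.toReal := by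
  have hr := toReal_pos' hp
  refine (lp.hasSum_norm hr _).unique ?_
  convert (lp.hasSum_norm hr (res S x)).add (lp.hasSum_norm hr (res T x)) using 2 with i
  simp only [res_apply]
  by_cases hS : i ∈ S
  · have hT : i ∉ T := Set.disjoint_left.mp h hS
    simp [hS, hT, hr.ne']
  · by_cases hT : i ∈ T <;> simp [hS, hT, hr.ne']

theorem exists_perm {S T : Set ℕ} (hS : S.Infinite) (hS' : Sᶜ.Infinite) (hT : T.Infinite)
    (hT' : Tᶜ.Infinite) : ∃ σ : Equiv.Perm ℕ, ∀ n, σ n ∈ T ↔ n ∈ S := by
  classical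
  have := hS.to_subtype
  have := hS'.to_subtype
  have := hT.to_subtype
  have := hT'.to_subtype
  obtain ⟨e₁⟩ : Nonempty (S ≃ T) := nonempty_equiv_of_countable
  obtain ⟨e₂⟩ : Nonempty ((Sᶜ : Set ℕ) ≃ (Tᶜ : Set ℕ)) := nonempty_equiv_of_countable
  refine ⟨(Equiv.Set.sumCompl S).symm.trans ((e₁.sumCongr e₂).trans (Equiv.Set.sumCompl T)),
    fun n => ?_⟩
  by_cases hn : n ∈ S
  · have : (Equiv.Set.sumCompl S).symm n = Sum.inl ⟨n, hn⟩ :=
      Equiv.Set.sumCompl_symm_apply_of_mem hn
    simp [this, hn]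
  · have : (Equiv.Set.sumCompl S).symm n = Sum.inr ⟨n, hn⟩ :=
      Equiv.Set.sumCompl_symm_apply_of_notMem hn
    simp only [Equiv.trans_apply, this, Equiv.sumCongr_apply, Sum.map_inr,
      Equiv.Set.sumCompl_apply_inr, hn, iff_false]
    exact (e₂ ⟨n, hn⟩).2

theorem infinite_mod (a : ℕ) (ha : a < 3) {S : Set ℕ} (h : ∀ n, n % 3 = a → n ∈ S) :
    S.Infinite :=
  Set.infinite_of_forall_exists_gt fun m => ⟨3 * (m + 1) + a, h _ (by omega), by omega⟩

theorem mul_rpow_sub_le {r : ℝ} (hr : 1 ≤ r) (a b : ℝ) :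
    |a * ‖a‖ ^ r - b * ‖b‖ ^ r| ≤ |a - b| * ((1 + r) * ‖a‖ ^ r + r * ‖b‖ ^ r) := by
  have h1 : a * ‖a‖ ^ r - b * ‖b‖ ^ r = (a - b) * ‖a‖ ^ r + b * (‖a‖ ^ r - ‖b‖ ^ r) := by ring
  set m := max ‖a‖ ‖b‖ with hm
  have hm0 : 0 ≤ m := le_max_of_le_left (norm_nonneg a)
  have h2 := abs_rpow_sub_le hr (norm_nonneg a) (norm_nonneg b) (le_max_left _ _) (le_max_right _ _)
  have h3 : |‖a‖ - ‖b‖| ≤ |a - b| := abs_norm_sub_norm_le a b
  have h4 : m * m ^ (r - 1) ≤ ‖a‖ ^ r + ‖b‖ ^ r := by
    rw [mul_comm, ← Real.rpow_add_one' hm0 (by linarith), sub_add_cancel]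
    have ha : 0 ≤ ‖a‖ ^ r := by positivity
    have hb : 0 ≤ ‖b‖ ^ r := by positivity
    rcases max_choice ‖a‖ ‖b‖ with h | h <;> rw [hm, h] <;> linarith
  have h5 : |b| ≤ m := le_max_right _ _
  rw [h1]
  refine (abs_add_le _ _).trans ?_
  rw [abs_mul, abs_mul, abs_of_nonneg (by positivity : 0 ≤ ‖a‖ ^ r)]
  calc |a - b| * ‖a‖ ^ r + |b| * |‖a‖ ^ r - ‖b‖ ^ r|
      ≤ |a - b| * ‖a‖ ^ r + m * (r * m ^ (r - 1) * |a - b|) := by
        gcongr
        exact h2.trans (by gcongr)
    _ = |a - b| * ‖a‖ ^ r + |a - b| * (r * (m * m ^ (r - 1))) := by ring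
    _ ≤ |a - b| * ‖a‖ ^ r + |a - b| * (r * (‖a‖ ^ r + ‖b‖ ^ r)) := by gcongr
    _ = _ := by ring

theorem bl_diag (hp : p ≠ ∞) (s : Finset I) :
    BL (fun x : lp (fun _ : I => ℝ) p => ∑ i ∈ s, x i * ‖x i‖ ^ p.toReal) 1 (1 + 2 * p.toReal) := by
  have hr := toReal_ge hp
  have hr0 := toReal_pos' hp
  have hp0 : p ≠ 0 := (zero_lt_one.trans_le hp1.out).ne'
  have hs : ∀ x : lp (fun _ : I => ℝ) p, ‖x‖ ≤ 1 → ∑ i ∈ s, ‖x i‖ ^ p.toReal ≤ 1 := fun x hx =>
    (lp.sum_rpow_le_norm_rpow hr0 x s).trans (Real.rpow_le_one (norm_nonneg _) hx hr0.le)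
  refine ⟨fun x hx => ?_, fun x y hx hy => ?_⟩
  · refine (Finset.abs_sum_le_sum_abs _ _).trans (le_trans (Finset.sum_le_sum fun i _ => ?_)
      (hs x hx))
    rw [abs_mul, abs_of_nonneg (by positivity : 0 ≤ ‖x i‖ ^ p.toReal)]
    exact mul_le_of_le_one_left (by positivity) ((lp.norm_apply_le_norm hp0 x i).trans hx)
  · rw [← Finset.sum_sub_distrib]
    refine (Finset.abs_sum_le_sum_abs _ _).trans ?_
    calc ∑ i ∈ s, |x i * ‖x i‖ ^ p.toReal - y i * ‖y i‖ ^ p.toReal|
        ≤ ∑ i ∈ s, ‖x - y‖ * ((1 + p.toReal) * ‖x i‖ ^ p.toReal + p.toReal * ‖y i‖ ^ p.toReal) := by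
          refine Finset.sum_le_sum fun i _ => (mul_rpow_sub_le hr _ _).trans ?_
          gcongr
          exact lp.norm_apply_le_norm hp0 (x - y) i
      _ = ‖x - y‖ * ((1 + p.toReal) * ∑ i ∈ s, ‖x i‖ ^ p.toReal +
          p.toReal * ∑ i ∈ s, ‖y i‖ ^ p.toReal) := by
          rw [← Finset.mul_sum, Finset.sum_add_distrib, ← Finset.mul_sum, ← Finset.mul_sum]
      _ ≤ ‖x - y‖ * ((1 + p.toReal) * 1 + p.toReal * 1) := by
          gcongr
          · exact hs x hx
          · exact hs y hy
      _ = _ := by ring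

theorem not_ell_option (hp : p ≠ ∞) (hp' : p ≠ 1) :
    ¬ HasEquivariantDualLifting (lp (fun _ : Option ℕ => ℝ) p) := by
  classical
  intro h
  obtain ⟨B⟩ := h.ballOp
  have hr := toReal_ge hp
  have hr0 := toReal_pos' hp
  have hr1 : 1 < p.toReal := lt_of_le_of_ne hr fun h => hp' (by
    rw [← ENNReal.ofReal_toReal hp, ← h, ENNReal.ofReal_one])
  set e : Option ℕ → lp (fun _ : Option ℕ => ℝ) p := fun i => lp.single p i (1 : ℝ) with he
  have hev : ∀ i, Adm fun x : lp (fun _ : Option ℕ => ℝ) p => x i := fun i =>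
    Adm.clm (lp.evalCLM ℝ (fun _ : Option ℕ => ℝ) p i)
  set u : Set (Option ℕ) → lp (fun _ : Option ℕ => ℝ) p → ℝ :=
    fun S x => x none * ‖res S x‖ ^ p.toReal with hu
  have hadm : ∀ S, Adm (u S) := fun S => (hev none).mul (adm_res hp S)
  set τ : Set (Option ℕ) → ℝ := fun S => B.Q (u S) (e none) with hτ
  have hadd : ∀ S T, Disjoint S T → τ (S ∪ T) = τ S + τ T := by
    intro S T hST
    have : u (S ∪ T) = fun x => u S x + u T x := by
      ext x
      simp only [hu, res_union hp hST, mul_add]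
    simp only [hτ, this, B.add (hadm S) (hadm T), add_apply]
  have hre : ∀ (σ : Equiv.Perm (Option ℕ)) (i : Option ℕ), reindex hp σ (e (σ i)) = e i := by
    intro σ i
    refine lp.ext (funext fun j => ?_)
    simp [reindex_apply, he, lp.single_apply, Pi.single_apply]
  have hinv : ∀ S T : Set ℕ, S.Infinite → Sᶜ.Infinite → T.Infinite → Tᶜ.Infinite →
      τ (some '' S) = τ (some '' T) := by
    intro S T h1 h2 h3 h4
    obtain ⟨σ, hσ⟩ := exists_perm h1 h2 h3 h4
    have h5 := B.comp (reindex hp σ.optionCongr) (hadm (some '' S)) (e none)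
    have h6 : reindex hp σ.optionCongr (e none) = e none := hre σ.optionCongr none
    have h7 : (fun y => u (some '' S) (reindex hp σ.optionCongr y)) = u (some '' T) := by
      ext y
      have : res (some '' S) (reindex hp σ.optionCongr y) =
          reindex hp σ.optionCongr (res (some '' T) y) := by
        refine lp.ext (funext fun j => ?_)
        rw [reindex_apply, res_apply, res_apply]
        cases j with
        | none => simp
        | some n =>
          by_cases hn : n ∈ S
          · have := (hσ n).mpr hn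
            simp [hn, this, reindex_apply]
          · have := mt (hσ n).mp hn
            simp [hn, this]
      simp only [hu, this, LinearIsometryEquiv.norm_map]
      rfl
    rw [h6, h7] at h5
    exact h5.symm
  have huniv : τ Set.univ = 1 := by
    have := B.id (lp.evalCLM ℝ (fun _ : Option ℕ => ℝ) p none) (hadm Set.univ) fun x hx => by
      have : res Set.univ x = x := lp.ext (by funext i; simp [res_apply])
      simp only [hu, this, hx, Real.one_rpow, mul_one]
      rfl
    simp only [hτ, this]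
    change e none none = 1
    simp [he]
  have hnone : τ {none} = 1 := by
    set A₀ : Set ℕ := {n | n % 3 = 0}
    set A₁ : Set ℕ := {n | n % 3 = 1}
    set A₂ : Set ℕ := {n | n % 3 = 2}
    have i0 : A₀.Infinite := infinite_mod 0 (by norm_num) fun n h => h
    have i1 : A₁.Infinite := infinite_mod 1 (by norm_num) fun n h => h
    have i2 : A₂.Infinite := infinite_mod 2 (by norm_num) fun n h => h
    have j0 : A₀ᶜ.Infinite := infinite_mod 1 (by norm_num) fun n h => by simp [A₀, h]
    have j1 : A₁ᶜ.Infinite := infinite_mod 0 (by norm_num) fun n h => by simp [A₁, h]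
    have j2 : A₂ᶜ.Infinite := infinite_mod 0 (by norm_num) fun n h => by simp [A₂, h]
    have i12 : (A₁ ∪ A₂).Infinite := i1.mono Set.subset_union_left
    have j12 : (A₁ ∪ A₂)ᶜ.Infinite := infinite_mod 0 (by norm_num) fun n h => by simp [A₁, A₂, h]
    have e1 := hinv _ _ i0 j0 i1 j1
    have e2 := hinv _ _ i0 j0 i2 j2
    have e3 := hinv _ _ i0 j0 i12 j12
    have d12 : Disjoint (some '' A₁) (some '' A₂) := by
      rw [Set.disjoint_image_iff (Option.some_injective ℕ), Set.disjoint_left]
      intro n h1 h2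
      simp only [A₁, A₂, Set.mem_ofPred_eq] at h1 h2
      omega
    have d0 : Disjoint (some '' A₀) (some '' (A₁ ∪ A₂)) := by
      rw [Set.disjoint_image_iff (Option.some_injective ℕ), Set.disjoint_left]
      intro n h1 h2
      simp only [A₀, A₁, A₂, Set.mem_ofPred_eq, Set.mem_union] at h1 h2
      omega
    have e4 := hadd _ _ d12
    have e5 := hadd _ _ d0
    have e6 := hadd {none} (some '' A₀ ∪ some '' (A₁ ∪ A₂)) (by simp)
    have e7 : {none} ∪ (some '' A₀ ∪ some '' (A₁ ∪ A₂)) = Set.univ := by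
      ext j
      cases j with
      | none => simp
      | some n =>
        simp only [A₀, A₁, A₂, Set.mem_union, Set.mem_singleton_iff, reduceCtorEq,
          Set.mem_image, Set.mem_ofPred_eq, Option.some.injEq, exists_eq_right, false_or,
          Set.mem_univ, iff_true]
        omega
    rw [← Set.image_union] at e4
    rw [e7, huniv] at e6
    linarith
  set g : Option ℕ → lp (fun _ : Option ℕ => ℝ) p → ℝ :=
    fun i x => x i * ‖x i‖ ^ p.toReal with hg
  have hgadm : ∀ i, Adm (g i) := fun i => ⟨_, _, by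
    simpa only [Finset.sum_singleton] using bl_diag hp {i}⟩
  have hg0 : u {none} = g none := by
    ext x
    have : res {none} x = lp.single p none (x none) := by
      refine lp.ext (funext fun j => ?_)
      rw [res_apply]
      by_cases hj : j = none <;> simp [hj, lp.single_apply]
    simp only [hu, hg, this, lp.norm_single (zero_lt_one.trans_le hp1.out)]
  have hdiag : ∀ i, B.Q (g i) (e i) = 1 := by
    intro i
    have h5 := B.comp (reindex hp (Equiv.swap none i)) (hgadm none) (e i)
    have h6 := hre (Equiv.swap none i) none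
    rw [Equiv.swap_apply_left] at h6
    have h7 : (fun y => g none (reindex hp (Equiv.swap none i) y)) = g i := by
      ext y
      simp only [hg, reindex_apply, Equiv.swap_apply_left]
    rw [h6, h7, ← hg0] at h5
    rw [h5]
    exact hnone
  have hoff : ∀ i j, i ≠ j → B.Q (g i) (e j) = 0 := by
    intro i j hij
    have h5 := B.comp (flip j) (hgadm i) (e j)
    have h6 : flip j (e j) = -e j := by
      refine lp.ext (funext fun k => ?_)
      rw [flip_apply]
      by_cases hk : k = j <;> simp [hk, he, lp.single_apply]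
    have h7 : (fun y => g i (flip j y)) = g i := by
      ext y
      simp only [hg, flip_apply, if_neg hij]
    rw [h6, h7, map_neg] at h5
    linarith
  set C' := B.C * (1 + 2 * |1 + 2 * p.toReal|)
  have hmain : ∀ n : ℕ, (n : ℝ) ≤ C' * (n : ℝ) ^ (1 / p.toReal) := by
    intro n
    set s : Finset (Option ℕ) := (Finset.range n).map ⟨some, Option.some_injective ℕ⟩
    have hcard : s.card = n := by simp [s]
    have h1 := B.bound (bl_diag hp s)
    have h2 := B.sum s hgadm
    have h3 : B.Q (fun x => ∑ i ∈ s, g i x) (∑ j ∈ s, e j) = n := by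
      rw [h2, _root_.sum_apply, ← hcard, Finset.card_eq_sum_ones, Nat.cast_sum]
      refine Finset.sum_congr rfl fun i hi => ?_
      rw [map_sum, Finset.sum_eq_single i (fun j _ hj => hoff i j hj.symm)
        (fun h => absurd hi h), hdiag, Nat.cast_one]
    have h4 : ‖∑ j ∈ s, e j‖ = (n : ℝ) ^ (1 / p.toReal) := by
      have := lp.norm_sum_single (E := fun _ : Option ℕ => ℝ) hr0 (fun _ => (1 : ℝ)) s
      simp only [norm_one, Real.one_rpow, Finset.sum_const, hcard, nsmul_eq_mul, mul_one] at this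
      rw [← this, ← Real.rpow_mul (norm_nonneg _), mul_one_div_cancel hr0.ne', Real.rpow_one]
    rw [← h4, ← h3]
    refine (Real.le_norm_self _).trans (((B.Q fun x => ∑ i ∈ s, g i x).le_opNorm _).trans ?_)
    exact mul_le_mul_of_nonneg_right h1 (norm_nonneg _)
  have hexp : 0 < 1 - 1 / p.toReal := by
    rw [sub_pos, div_lt_one hr0]; exact hr1
  obtain ⟨n, hn1, hn2⟩ := (((tendsto_rpow_atTop hexp).comp
    tendsto_natCast_atTop_atTop).eventually_gt_atTop C').and (eventually_gt_atTop 0) |>.exists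
  have hn0 : (0 : ℝ) < n := by exact_mod_cast hn2
  have h1 := hmain n
  have h2 : (n : ℝ) = (n : ℝ) ^ (1 - 1 / p.toReal) * (n : ℝ) ^ (1 / p.toReal) := by
    rw [← Real.rpow_add hn0, sub_add_cancel, Real.rpow_one]
  have h3 : 0 < (n : ℝ) ^ (1 / p.toReal) := by positivity
  simp only [Function.comp] at hn1
  nlinarith

theorem not_ell (hp : p ≠ ∞) (hp' : p ≠ 1) :
    ¬ HasEquivariantDualLifting (lp (fun _ : ℕ => ℝ) p) := fun h =>
  not_ell_option hp hp' (h.transfer (reindex hp (Denumerable.eqv (Option ℕ))))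

end Pool.Agent.P.MP_32ff52_an
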