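import Mathlib
import Pool.Agent.P.MP_32ff52_an.Basic

open scoped NNReal ENNReal
open Filter Topology

namespace Pool.Agent.P.MP_32ff52_an

/-- The unit vectors. -/
noncomputable def ev (i : ℕ) : lp (fun _ : ℕ => ℝ) 1 := lp.single 1 i (1 : ℝ)

theorem norm_ev (i : ℕ) : ‖ev i‖ = 1 := by simp [ev]

theorem single_eq (i : ℕ) (a : ℝ) : (lp.single 1 i a : lp (fun _ : ℕ => ℝ) 1) = a • ev i := by
  rw [ev, ← lp.single_smul, smul_eq_mul, mul_one]

theorem norm_split (x : lp (fun _ : ℕ => ℝ) 1) (i : ℕ) : ‖x - x i • ev i‖ = ‖x‖ - |x i| := by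
  have := lp.norm_compl_sum_single (p := 1) (by simp) x {i}
  simpa [single_eq] using this

theorem isometry_ev (g : lp (fun _ : ℕ => ℝ) 1 ≃ₗᵢ[ℝ] lp (fun _ : ℕ => ℝ) 1) (i : ℕ) :
    ∃ j, g (ev i) = ev j ∨ g (ev i) = -ev j := by
  set y := g (ev i) with hy
  have hy1 : ‖y‖ = 1 := by rw [hy, g.norm_map, norm_ev]
  have hy0 : y ≠ 0 := by intro h; simp [h] at hy1
  obtain ⟨j, hj⟩ : ∃ j, y j ≠ 0 := by
    by_contra hcon
    push Not at hcon
    exact hy0 (lp.ext (funext hcon))
  set a := g.symm (y j • ev j) with ha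
  set b := g.symm (y - y j • ev j) with hb
  have hab : a + b = ev i := by rw [ha, hb, ← map_add, add_sub_cancel, hy, g.symm_apply_apply]
  have hna : ‖a‖ = |y j| := by rw [ha, g.symm.norm_map, norm_smul, norm_ev, mul_one, Real.norm_eq_abs]
  have hnb : ‖b‖ = 1 - |y j| := by rw [hb, g.symm.norm_map, norm_split, hy1]
  have h1 : a i + b i = 1 := by
    have := congrArg (fun z : lp (fun _ : ℕ => ℝ) 1 => z i) hab
    simpa [ev] using this
  have h2 : |a i| ≤ ‖a‖ := lp.norm_apply_le_norm one_ne_zero a i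
  have h3 : |b i| ≤ ‖b‖ := lp.norm_apply_le_norm one_ne_zero b i
  have h4 : ‖a - a i • ev i‖ = 0 := by
    rw [norm_split]
    linarith [le_abs_self (a i), le_abs_self (b i)]
  have h5 : a = a i • ev i := sub_eq_zero.mp (norm_eq_zero.mp h4)
  have h6 : y j • ev j = a i • y := by
    rw [hy, ← map_smul, ← h5, ha, g.apply_symm_apply]
  have h7 : a i ≠ 0 := by
    intro h
    rw [h, zero_smul, smul_eq_zero] at h6
    rcases h6 with h6 | h6
    · exact hj h6
    · simpa [h6] using norm_ev j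
  have h8 : y = ((a i)⁻¹ * y j) • ev j := by
    rw [mul_smul, h6, smul_smul, inv_mul_cancel₀ h7, one_smul]
  have h9 : |(a i)⁻¹ * y j| = 1 := by
    rw [h8, norm_smul, norm_ev, mul_one, Real.norm_eq_abs] at hy1
    exact hy1
  refine ⟨j, ?_⟩
  rcases abs_eq zero_le_one |>.mp h9 with h | h
  · left; rw [h8, h, one_smul]
  · right; rw [h8, h, neg_one_smul]

theorem summable_mul {c : ℕ → ℝ} {K : ℝ} (hc : ∀ i, |c i| ≤ K) (x : lp (fun _ : ℕ => ℝ) 1) :
    HasSum (fun i => K * ‖x i‖) (K * ‖x‖) ∧ ∀ i, ‖c i * x i‖ ≤ K * ‖x i‖ := by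
  have := lp.hasSum_norm (p := 1) (by simp) x
  simp only [ENNReal.toReal_one, Real.rpow_one] at this
  refine ⟨this.mul_left K, fun i => ?_⟩
  rw [norm_mul]
  exact mul_le_mul_of_nonneg_right (hc i) (norm_nonneg _)

/-- The functional given by a bounded sequence. -/
noncomputable def pairing (c : ℕ → ℝ) (K : ℝ) (hc : ∀ i, |c i| ≤ K) :
    lp (fun _ : ℕ => ℝ) 1 →L[ℝ] ℝ :=
  LinearMap.mkContinuous
    { toFun := fun x => ∑' i, c i * x i
      map_add' := fun x y => by
        rw [← Summable.tsum_add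
          (.of_norm_bounded (summable_mul hc x).1.summable (summable_mul hc x).2)
          (.of_norm_bounded (summable_mul hc y).1.summable (summable_mul hc y).2)]
        simp [mul_add]
      map_smul' := fun a x => by
        simp only [lp.coeFn_smul, Pi.smul_apply, smul_eq_mul, RingHom.id_apply, ← tsum_mul_left]
        congr 1
        ext i
        ring } K fun x => tsum_of_norm_bounded (summable_mul hc x).1 (summable_mul hc x).2

theorem pairing_ev (c : ℕ → ℝ) (K : ℝ) (hc : ∀ i, |c i| ≤ K) (j : ℕ) :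
    pairing c K hc (ev j) = c j := by
  change ∑' i, c i * ev j i = c j
  rw [tsum_eq_single j]
  · simp [ev]
  · intro i hi
    simp [ev, lp.single_apply, hi]

theorem clm_ext {φ ψ : lp (fun _ : ℕ => ℝ) 1 →L[ℝ] ℝ} (h : ∀ j, φ (ev j) = ψ (ev j)) : φ = ψ := by
  refine lp.ext_continuousLinearMap ENNReal.one_ne_top fun i => ?_
  ext
  exact h i

theorem coef_bound {f : lp (fun _ : ℕ => ℝ) 1 → ℝ} {K : ℝ≥0} (hK : LipschitzWith K f) (i : ℕ) :
    |(f (ev i) - f (-ev i)) / 2| ≤ K := by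
  have h1 := hK.dist_le_mul (ev i) (-ev i)
  rw [Real.dist_eq, dist_eq_norm, sub_neg_eq_add, ← two_smul ℝ, norm_smul, norm_ev] at h1
  rw [abs_div, abs_two, div_le_iff₀ two_pos]
  simpa using h1

theorem ell_one : HasEquivariantDualLifting (lp (fun _ : ℕ => ℝ) 1) := by
  let P₀ : Lip0 (lp (fun _ : ℕ => ℝ) 1) → lp (fun _ : ℕ => ℝ) 1 →L[ℝ] ℝ := fun f =>
    pairing (fun i => (f.1 (ev i) - f.1 (-ev i)) / 2) _ (coef_bound f.2.2.choose_spec)
  have hP₀ : ∀ f j, P₀ f (ev j) = (f.1 (ev j) - f.1 (-ev j)) / 2 := fun f j => pairing_ev _ _ _ j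
  let P : Lip0 (lp (fun _ : ℕ => ℝ) 1) →ₗ[ℝ] lp (fun _ : ℕ => ℝ) 1 →L[ℝ] ℝ :=
    { toFun := P₀
      map_add' := fun f g => clm_ext fun j => by
        simp only [add_apply, hP₀, Submodule.coe_add, Pi.add_apply]
        ring
      map_smul' := fun a f => clm_ext fun j => by
        simp only [smul_apply, hP₀, Submodule.coe_smul, Pi.smul_apply, smul_eq_mul,
          RingHom.id_apply]
        ring }
  have hP : ∀ f j, P f (ev j) = (f.1 (ev j) - f.1 (-ev j)) / 2 := hP₀
  refine ⟨P, ⟨1, fun f K hK => ?_⟩, fun φ f hf => clm_ext fun j => ?_, fun g f f' hf x => ?_⟩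
  · have : P f = pairing (fun i => (f.1 (ev i) - f.1 (-ev i)) / 2) K (coef_bound hK) :=
      clm_ext fun j => by rw [hP, pairing_ev]
    rw [this, one_mul]
    exact LinearMap.mkContinuous_norm_le _ K.2 _
  · rw [hP, hf, map_neg]
    ring
  · have : P f' = (P f).comp (g.toContinuousLinearEquiv : _ →L[ℝ] _) := clm_ext fun i => by
      change _ = P f (g (ev i))
      rw [hP, hf]
      simp only [Function.comp, map_neg]
      obtain ⟨j, hj | hj⟩ := isometry_ev g i
      · rw [hj, hP]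
      · rw [hj, map_neg, hP, neg_neg]
        ring
    rw [this]
    rfl

end Pool.Agent.P.MP_32ff52_an
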