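import Mathlib
import Pool.Agent.P.MP_32ff52_an.LpTools

open scoped NNReal ENNReal
open Filter Topology MeasureTheory Set ProbabilityTheory

namespace Pool.Agent.P.MP_32ff52_an

variable {p : ℝ≥0∞} [hp1 : Fact (1 ≤ p)]

open Classical in
/-- The quantile function. -/
noncomputable def qtl (m : Measure ℝ) (u : ℝ) : ℝ :=
  if u ∈ Ioo (0 : ℝ) 1 then sInf {x | u ≤ cdf m x} else 0

theorem qtl_le_iff (m : Measure ℝ) {u : ℝ} (hu : u ∈ Ioo (0 : ℝ) 1) (x : ℝ) :
    qtl m u ≤ x ↔ u ≤ cdf m x := by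
  rw [qtl, if_pos hu]
  have hne : {x | u ≤ cdf m x}.Nonempty :=
    ((tendsto_cdf_atTop m).eventually (eventually_ge_nhds hu.2)).exists
  have hbd : BddBelow {x | u ≤ cdf m x} := by
    obtain ⟨b, hb⟩ := eventually_atBot.mp ((tendsto_cdf_atBot m).eventually (eventually_lt_nhds hu.1))
    exact ⟨b, fun y hy => le_of_not_gt fun h => absurd (hb y h.le) (not_lt.mpr hy)⟩
  refine ⟨fun h => ?_, fun h => csInf_le hbd h⟩
  have h1 : Tendsto (cdf m) (𝓝[>] x) (𝓝 (cdf m x)) :=
    ((cdf m).right_continuous x).mono Ioi_subset_Ici_self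
  refine ge_of_tendsto h1 ?_
  filter_upwards [self_mem_nhdsWithin] with y hy
  obtain ⟨z, hz, hzy⟩ := exists_lt_of_csInf_lt hne (lt_of_le_of_lt h hy)
  exact le_trans hz (monotone_cdf m hzy.le)

theorem qtl_meas (m : Measure ℝ) : Measurable (qtl m) := by
  refine measurable_of_Iic fun x => ?_
  have : qtl m ⁻¹' Iic x = (Ioo 0 1 ∩ Iic (cdf m x)) ∪ ((Ioo 0 1)ᶜ ∩ {_u : ℝ | 0 ≤ x}) := by
    ext u
    by_cases hu : u ∈ Ioo (0 : ℝ) 1
    · simp only [mem_preimage, mem_Iic, qtl_le_iff m hu, mem_union, mem_inter_iff, hu,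
        mem_compl_iff, not_true, true_and, false_and, or_false]
    · simp only [mem_preimage, mem_Iic, qtl, mem_union, mem_inter_iff, hu, if_false,
        mem_compl_iff, not_false_iff, true_and, false_and, false_or, mem_ofPred_eq]
  rw [this]
  exact (measurableSet_Ioo.inter measurableSet_Iic).union
    (measurableSet_Ioo.compl.inter (MeasurableSet.const _))

theorem ae_Ioo : ∀ᵐ u ∂(volume.restrict (Icc (0 : ℝ) 1)), u ∈ Ioo (0 : ℝ) 1 := by
  rw [← Measure.restrict_congr_set Ioo_ae_eq_Icc]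
  exact ae_restrict_mem measurableSet_Ioo

theorem qtl_mp (m : Measure ℝ) [IsProbabilityMeasure m] :
    MeasurePreserving (qtl m) (volume.restrict (Icc (0 : ℝ) 1)) m := by
  refine ⟨qtl_meas m, Measure.ext_of_Iic _ _ fun x => ?_⟩
  rw [Measure.map_apply (qtl_meas m) measurableSet_Iic, ← ofReal_cdf]
  have h1 : qtl m ⁻¹' Iic x =ᵐ[volume.restrict (Icc (0 : ℝ) 1)] Iic (cdf m x) := by
    filter_upwards [ae_Ioo] with u hu
    exact propext (qtl_le_iff m hu x)
  rw [measure_congr h1, Measure.restrict_apply measurableSet_Iic]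
  have h2 : Iic (cdf m x) ∩ Icc 0 1 = Icc 0 (cdf m x) := by
    ext u
    exact ⟨fun h => ⟨h.2.1, h.1⟩, fun h => ⟨h.2, h.1, h.2.trans (cdf_le_one m x)⟩⟩
  rw [h2, Real.volume_Icc, sub_zero]

theorem cdf_qtl (m : Measure ℝ) [IsProbabilityMeasure m] [NullSingletonClass m] {u : ℝ}
    (hu : u ∈ Ioo (0 : ℝ) 1) : cdf m (qtl m u) = u := by
  refine le_antisymm ?_ ((qtl_le_iff m hu _).mp le_rfl)
  have h1 := (cdf m).measure_singleton (qtl m u)
  rw [measure_cdf, measure_singleton, eq_comm, ENNReal.ofReal_eq_zero, sub_nonpos] at h1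
  refine h1.trans (le_of_tendsto ((monotone_cdf m).tendsto_leftLim (qtl m u)) ?_)
  filter_upwards [self_mem_nhdsWithin] with y hy
  exact le_of_not_gt fun h => absurd ((qtl_le_iff m hu y).mpr h.le) (not_le.mpr hy)

theorem cdf_mp (m : Measure ℝ) [IsProbabilityMeasure m] [NullSingletonClass m] :
    MeasurePreserving (cdf m) m (volume.restrict (Icc (0 : ℝ) 1)) := by
  have hm : Measurable (cdf m) := (monotone_cdf m).measurable
  refine ⟨hm, ?_⟩
  have h1 : Measure.map (cdf m) m =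
      Measure.map (cdf m ∘ qtl m) (volume.restrict (Icc (0 : ℝ) 1)) := by
    rw [← Measure.map_map hm (qtl_meas m), (qtl_mp m).map_eq]
  rw [h1, Measure.map_congr (g := id), Measure.map_id]
  filter_upwards [ae_Ioo] with u hu
  exact cdf_qtl m hu

theorem exists_iso (hp : p ≠ ∞) : Nonempty (Lp ℝ p (volume.restrict (Icc (0 : ℝ) 1)) ≃ₗᵢ[ℝ]
    Lp ℝ p (volume : Measure (ℝ × ℝ))) := by
  have hr := one_le_toReal hp
  obtain ⟨g, hg0, hgm, hg1⟩ :=
    exists_pos_lintegral_lt_of_sigmaFinite (volume : Measure (ℝ × ℝ)) one_ne_zero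
  set c := ∫⁻ z, (g z : ℝ≥0∞) with hc
  have hc0 : c ≠ 0 := by
    rw [hc, Ne, lintegral_eq_zero_iff (by fun_prop)]
    intro h
    obtain ⟨z, hz⟩ := h.exists
    exact (hg0 z).ne' (ENNReal.coe_eq_zero.mp hz)
  have hc1 : c ≠ ∞ := hg1.ne_top
  have hcp : 0 < c.toReal := ENNReal.toReal_pos hc0 hc1
  let w : ℝ × ℝ → ℝ := fun z => ((g z : ℝ) / c.toReal) ^ p.toReal⁻¹
  have hw : Measurable w := by fun_prop
  have hw0 : ∀ z, 0 < w z := fun z => Real.rpow_pos_of_pos (div_pos (hg0 z) hcp) _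
  have hwe : ∀ z, ‖w z‖ₑ ^ p.toReal = (g z : ℝ≥0∞) / c := fun z => by
    have h1 : w z ^ p.toReal = (g z : ℝ) / c.toReal :=
      Real.rpow_inv_rpow (div_nonneg (g z).2 hcp.le) (by linarith)
    rw [Real.enorm_of_nonneg (hw0 z).le, ENNReal.ofReal_rpow_of_pos (hw0 z), h1,
      ENNReal.ofReal_div_of_pos hcp,
      ENNReal.ofReal_coe_nnreal, ENNReal.ofReal_toReal hc1]
  set ν : Measure (ℝ × ℝ) := volume.withDensity fun z => ‖w z‖ₑ ^ p.toReal with hν
  have : IsProbabilityMeasure ν := ⟨by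
    rw [hν, withDensity_apply _ MeasurableSet.univ, Measure.restrict_univ]
    simp only [hwe, div_eq_mul_inv]
    rw [lintegral_mul_const _ (by fun_prop), ← hc, ENNReal.mul_inv_cancel hc0 hc1]⟩
  have hna : ∀ z, ν {z} = 0 := fun z =>
    withDensity_absolutelyContinuous _ _ (measure_singleton z)
  let e : (ℝ × ℝ) ≃ᵐ ℝ :=
    PolishSpace.measurableEquivOfNotCountable (not_countable) (not_countable)
  have he : MeasurePreserving e ν (ν.map e) := ⟨e.measurable, rfl⟩
  have : IsProbabilityMeasure (ν.map e) := Measure.isProbabilityMeasure_map e.measurable.aemeasurable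
  have : NullSingletonClass (ν.map e) := ⟨fun x => by
    rw [e.map_apply, ← hna (e.symm x)]
    congr 1
    ext z
    simp [e.eq_symm_apply]⟩
  exact ⟨((compEquiv _ (qtl_mp (ν.map e)) _ (cdf_mp (ν.map e))
      (ae_Ioo.mono fun u hu => cdf_qtl _ hu)).symm.trans
    (compEquiv e he e.symm (he.symm e) (.of_forall e.symm_apply_apply))).trans
    (mulEquiv hp hw (fun z => (hw0 z).ne') hν)⟩

end Pool.Agent.P.MP_32ff52_an
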