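import Mathlib

open MeasureTheory Set

namespace Pool.Agent.P.MP_32ff52_an

theorem no_inv_charge (τ : Set (ℝ × ℝ) → ℝ)
    (hadd : ∀ S S', MeasurableSet S → MeasurableSet S' → Disjoint S S' → τ (S ∪ S') = τ S + τ S')
    (hT : ∀ S, MeasurableSet S → τ ((fun z : ℝ × ℝ => (z.1 - z.2, z.2)) ⁻¹' S) = τ S)
    (hW : ∀ S, MeasurableSet S → τ (Prod.swap ⁻¹' S) = τ S) (h0 : τ {0} = 0) : τ univ = 0 := by
  have hT' : ∀ S, MeasurableSet S → τ ((fun z : ℝ × ℝ => (z.1 + z.2, z.2)) ⁻¹' S) = τ S := by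
    intro S hS
    rw [← hT _ (hS.preimage (by fun_prop)), ← preimage_comp]
    congr 1
    ext z
    simp
  have hU : ∀ S, MeasurableSet S → τ ((fun z : ℝ × ℝ => (z.1, z.2 - z.1)) ⁻¹' S) = τ S := by
    intro S hS
    rw [← hW S hS, ← hT _ (hS.preimage measurable_swap),
      ← hW _ ((hS.preimage measurable_swap).preimage (by fun_prop))]
    rfl
  have hU' : ∀ S, MeasurableSet S → τ ((fun z : ℝ × ℝ => (z.1, z.2 + z.1)) ⁻¹' S) = τ S := by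
    intro S hS
    rw [← hW S hS, ← hT' _ (hS.preimage measurable_swap),
      ← hW _ ((hS.preimage measurable_swap).preimage (by fun_prop))]
    rfl
  have hR : ∀ S, MeasurableSet S → τ ((fun z : ℝ × ℝ => (-z.2, z.1)) ⁻¹' S) = τ S := by
    intro S hS
    have h1 : MeasurableSet ((fun z : ℝ × ℝ => (z.1 - z.2, z.2)) ⁻¹' S) :=
      hS.preimage (by fun_prop)
    have h2 := h1.preimage (f := fun z : ℝ × ℝ => (z.1, z.2 + z.1)) (by fun_prop)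
    rw [← hT S hS, ← hU' _ h1, ← hT _ h2]
    congr 1
    ext z
    simp
  have m1 : MeasurableSet {z : ℝ × ℝ | 0 ≤ z.1 ∧ 0 < z.2} := by measurability
  have m2 : MeasurableSet {z : ℝ × ℝ | 0 < z.1 ∧ z.2 ≤ 0} := by measurability
  have m3 : MeasurableSet {z : ℝ × ℝ | z.1 ≤ 0 ∧ z.2 < 0} := by measurability
  have m4 : MeasurableSet {z : ℝ × ℝ | z.1 < 0 ∧ 0 ≤ z.2} := by measurability
  have c1 : τ {z : ℝ × ℝ | 0 ≤ z.1 ∧ 0 < z.2} = 0 := by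
    have h1 := hadd _ _ (m1.preimage (f := fun z : ℝ × ℝ => (z.1 - z.2, z.2)) (by fun_prop))
      (m1.preimage (f := fun z : ℝ × ℝ => (z.1, z.2 - z.1)) (by fun_prop)) (by
        rw [Set.disjoint_left]
        rintro z ⟨h1, -⟩ ⟨-, h2⟩
        simp only at h1 h2
        linarith)
    rw [hT _ m1, hU _ m1] at h1
    have h2 : (fun z : ℝ × ℝ => (z.1 - z.2, z.2)) ⁻¹' {z : ℝ × ℝ | 0 ≤ z.1 ∧ 0 < z.2} ∪
        (fun z : ℝ × ℝ => (z.1, z.2 - z.1)) ⁻¹' {z : ℝ × ℝ | 0 ≤ z.1 ∧ 0 < z.2} =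
        {z : ℝ × ℝ | 0 ≤ z.1 ∧ 0 < z.2} := by
      ext z
      simp only [mem_union, mem_preimage, mem_ofPred_eq]
      constructor
      · rintro (⟨h1, h2⟩ | ⟨h1, h2⟩) <;> constructor <;> linarith
      · rintro ⟨h1, h2⟩
        rcases le_or_gt z.2 z.1 with h | h
        · exact Or.inl ⟨by linarith, h2⟩
        · exact Or.inr ⟨h1, by linarith⟩
    rw [h2] at h1
    linarith
  have c2 : τ {z : ℝ × ℝ | 0 < z.1 ∧ z.2 ≤ 0} = 0 := by
    refine Eq.trans ?_ ((hR _ m1).trans c1)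
    congr 1
    ext z
    simp [and_comm]
  have c3 : τ {z : ℝ × ℝ | z.1 ≤ 0 ∧ z.2 < 0} = 0 := by
    refine Eq.trans ?_ ((hR _ m2).trans c2)
    congr 1
    ext z
    simp [and_comm]
  have c4 : τ {z : ℝ × ℝ | z.1 < 0 ∧ 0 ≤ z.2} = 0 := by
    refine Eq.trans ?_ ((hR _ m3).trans c3)
    congr 1
    ext z
    simp [and_comm]
  have e : (univ : Set (ℝ × ℝ)) = (((({z : ℝ × ℝ | 0 ≤ z.1 ∧ 0 < z.2} ∪
      {z : ℝ × ℝ | 0 < z.1 ∧ z.2 ≤ 0}) ∪ {z : ℝ × ℝ | z.1 ≤ 0 ∧ z.2 < 0}) ∪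
      {z : ℝ × ℝ | z.1 < 0 ∧ 0 ≤ z.2}) ∪ {0}) := by
    ext ⟨x, y⟩
    simp only [mem_univ, mem_union, mem_ofPred_eq, mem_singleton_iff, Prod.mk_eq_zero, true_iff]
    rcases lt_trichotomy x 0 with h | h | h <;> rcases lt_trichotomy y 0 with h' | h' | h' <;>
      simp [h, h', h.le, h'.le]
  rw [e, hadd _ _ (((m1.union m2).union m3).union m4) (measurableSet_singleton _),
    hadd _ _ ((m1.union m2).union m3) m4, hadd _ _ (m1.union m2) m3, hadd _ _ m1 m2,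
    c1, c2, c3, c4, h0]
  · simp
  · rw [Set.disjoint_left]
    rintro z ⟨_, _⟩ ⟨_, _⟩
    linarith
  · rw [Set.disjoint_left]
    rintro z (⟨_, _⟩ | ⟨_, _⟩) ⟨_, _⟩ <;> linarith
  · rw [Set.disjoint_left]
    rintro z ((⟨_, _⟩ | ⟨_, _⟩) | ⟨_, _⟩) ⟨_, _⟩ <;> linarith
  · rw [Set.disjoint_singleton_right]
    simp

end Pool.Agent.P.MP_32ff52_an
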