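import Mathlib
import Pool.Agent.P.MP_32ff52_an.Charge
import Pool.Agent.P.MP_32ff52_an.Paradox

open scoped NNReal ENNReal
open Filter Topology MeasureTheory Set

namespace Pool.Agent.P.MP_32ff52_an

variable {p : ℝ≥0∞} [hp1 : Fact (1 ≤ p)]

theorem not_plane (hp : p ≠ ∞) :
    ¬ HasEquivariantDualLifting (Lp ℝ p (volume : Measure (ℝ × ℝ))) := by
  intro h
  obtain ⟨B⟩ := h.ballOp
  set Q : Set (ℝ × ℝ) := Ico 0 1 ×ˢ Ico 0 1 with hQ
  have mQ : MeasurableSet Q := measurableSet_Ico.prod measurableSet_Ico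
  have vQ : volume Q = 1 := by simp [hQ, Measure.volume_eq_prod]
  have fQ : volume Q ≠ ∞ := by rw [vQ]; exact ENNReal.one_ne_top
  have hT : MeasurePreserving (fun z : ℝ × ℝ => (z.1 - z.2, z.2)) volume volume :=
    measurePreserving_sub_prod volume volume
  have hT' : MeasurePreserving (fun z : ℝ × ℝ => (z.1 + z.2, z.2)) volume volume :=
    measurePreserving_add_prod volume volume
  have hW : MeasurePreserving (Prod.swap : ℝ × ℝ → ℝ × ℝ) volume volume :=
    Measure.measurePreserving_swap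
  have key := no_inv_charge (fun S => chg B S Q)
    (fun S S' hS hS' hd => chg_union_left hp B hS hS' hd mQ fQ) (fun S hS => ?_) (fun S hS => ?_)
    (chg_zero B mQ fQ)
  · rw [chg_univ hp B mQ fQ, Measure.real, vQ] at key
    simp at key
  · have hS' : MeasurableSet ((fun z : ℝ × ℝ => (z.1 - z.2, z.2)) ⁻¹' S) :=
      hS.preimage hT.measurable
    rw [← chg_comp hp B hT hT' (fun s => by simp) hT.measurable (fun s t => by
      ext <;> simp only [Prod.fst_sub, Prod.snd_sub]; ring) hS mQ fQ]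
    set A1 : Set (ℝ × ℝ) := Q ∩ {z | z.2 ≤ z.1}
    set A2 : Set (ℝ × ℝ) := Q ∩ {z | z.1 < z.2}
    have m1 : MeasurableSet A1 := mQ.inter (by measurability)
    have m2 : MeasurableSet A2 := mQ.inter (by measurability)
    have f1 : volume A1 ≠ ∞ := measure_ne_top_of_subset inter_subset_left fQ
    have f2 : volume A2 ≠ ∞ := measure_ne_top_of_subset inter_subset_left fQ
    have hg : MeasurePreserving (fun z : ℝ × ℝ => z - (1, 0)) volume volume :=
      measurePreserving_sub_right volume _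
    have hg' : MeasurePreserving (fun z : ℝ × ℝ => z + (1, 0)) volume volume :=
      measurePreserving_add_right volume _
    have e1 : Q = A1 ∪ A2 := by
      rw [← inter_union_distrib_left]
      refine (inter_eq_left.mpr fun z _ => ?_).symm
      exact le_or_gt z.2 z.1
    have e2 : (fun z : ℝ × ℝ => (z.1 - z.2, z.2)) ⁻¹' Q =
        A1 ∪ (fun z : ℝ × ℝ => z - (1, 0)) ⁻¹' A2 := by
      ext ⟨x, y⟩
      simp only [A1, A2, hQ, mem_preimage, mem_prod, mem_Ico, mem_union, mem_inter_iff,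
        mem_ofPred_eq, Prod.mk_sub_mk, sub_zero]
      constructor
      · rintro ⟨⟨h1, h2⟩, h3, h4⟩
        rcases lt_or_ge x 1 with h | h
        · exact Or.inl ⟨⟨⟨by linarith, h⟩, h3, h4⟩, by linarith⟩
        · exact Or.inr ⟨⟨⟨by linarith, by linarith⟩, h3, h4⟩, by linarith⟩
      · rintro (⟨⟨⟨h1, h2⟩, h3, h4⟩, h5⟩ | ⟨⟨⟨h1, h2⟩, h3, h4⟩, h5⟩) <;>
          exact ⟨⟨by linarith, by linarith⟩, h3, h4⟩
    have e3 := chg_comp hp B (L := id) hg hg' (fun s => by simp) measurable_id
      (fun s t => by simp) hS' m2 f2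
    rw [preimage_id] at e3
    rw [e2, chg_union_right hp B hS' m1 f1 (m2.preimage hg.measurable)
      (by rwa [hg.measure_preimage m2.nullMeasurableSet]), e3, ← chg_union_right hp B hS' m1 f1 m2 f2,
      ← e1]
    · rw [Set.disjoint_left]
      rintro z ⟨-, h1⟩ ⟨-, h2⟩
      simp only [mem_ofPred_eq] at h1 h2
      linarith
    · rw [Set.disjoint_left]
      rintro ⟨x, y⟩ ⟨⟨⟨-, h1⟩, -⟩, -⟩ ⟨⟨⟨h2, -⟩, -⟩, -⟩
      simp only [Prod.mk_sub_mk] at h1 h2
      linarith
  · rw [← chg_comp hp B hW hW (fun s => rfl) measurable_swap (fun s t => rfl) hS mQ fQ]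
    congr 1
    ext z
    simp [hQ]

end Pool.Agent.P.MP_32ff52_an
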